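import Pool.Agent.Dij.Defs

/-!
Packing of covers of the sets without entering arcs which avoid a root (Edmonds, Lovasz), and the
behaviour of minimal covers at sink components.
-/

set_option linter.unusedSectionVars false

namespace Pool.Agent.Dij

section

variable {V A : Type*} [Fintype V] [DecidableEq V] [Fintype A] [DecidableEq A]

variable {tail head : A → V}

/-- nonempty, without `r`, no entering arc -/
def Ok (tail head : A → V) (r : V) (U : Finset V) : Prop :=
  U.Nonempty ∧ r ∉ U ∧ ∀ a, head a ∈ U → tail a ∈ U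

theorem mem_out {X : Finset A} {U : Finset V} {a : A} :
    a ∈ out tail head X U ↔ a ∈ X ∧ tail a ∈ U ∧ head a ∉ U := by
  simp [out]

theorem mem_into {X : Finset A} {U : Finset V} {a : A} :
    a ∈ into tail head X U ↔ a ∈ X ∧ tail a ∉ U ∧ head a ∈ U := by
  simp [into]

theorem closed_reach {U : Finset V} (hU : ∀ a : A, head a ∈ U → tail a ∈ U) {x y : V}
    (h : Reach tail head x y) (hy : y ∈ U) : x ∈ U := by
  induction h using Relation.ReflTransGen.head_induction_on with
  | refl => exact hy
  | head hab _ ih =>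
    obtain ⟨a, rfl, rfl⟩ := hab
    exact hU a ih

theorem fclosed_reach {U : Finset V} (hU : ∀ a : A, tail a ∈ U → head a ∈ U) {x y : V}
    (h : Reach tail head x y) (hx : x ∈ U) : y ∈ U := by
  induction h with
  | refl => exact hx
  | tail _ hab ih =>
    obtain ⟨a, rfl, rfl⟩ := hab
    exact hU a ih

theorem submod (X : Finset A) (U W : Finset V) :
    (out tail head X (U ∩ W)).card + (out tail head X (U ∪ W)).card ≤
      (out tail head X U).card + (out tail head X W).card := by
  simp only [out, Finset.card_filter]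
  rw [← Finset.sum_add_distrib, ← Finset.sum_add_distrib]
  refine Finset.sum_le_sum fun a _ => ?_
  by_cases h1 : tail a ∈ U <;> by_cases h2 : tail a ∈ W <;> by_cases h3 : head a ∈ U <;>
    by_cases h4 : head a ∈ W <;> simp [h1, h2, h3, h4]

theorem Ok.inter {r : V} {U W : Finset V} (hU : Ok tail head r U) (hW : Ok tail head r W)
    (h : (U ∩ W).Nonempty) : Ok tail head r (U ∩ W) :=
  ⟨h, fun hr => hU.2.1 (Finset.mem_inter.1 hr).1, fun a ha =>
    Finset.mem_inter.2 ⟨hU.2.2 a (Finset.mem_inter.1 ha).1, hW.2.2 a (Finset.mem_inter.1 ha).2⟩⟩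

theorem Ok.union {r : V} {U W : Finset V} (hU : Ok tail head r U) (hW : Ok tail head r W) :
    Ok tail head r (U ∪ W) :=
  ⟨hU.1.mono Finset.subset_union_left, fun hr => (Finset.mem_union.1 hr).elim hU.2.1 hW.2.1,
    fun a ha => Finset.mem_union.2 ((Finset.mem_union.1 ha).imp (hU.2.2 a) (hW.2.2 a))⟩

theorem extract_aux (r : V) (T : Finset A) (k : ℕ)
    (h : ∀ U, Ok tail head r U → k + 1 ≤ (out tail head T U).card) :
    ∀ n : ℕ, ∀ (J : Finset A) (R : Finset V), Rᶜ.card = n → J ⊆ T →
      (∀ a, tail a ∈ R → head a ∈ R) → r ∈ R → (∀ e ∈ J, tail e ∈ R) →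
      (∀ U, Ok tail head r U → (U ∩ R).Nonempty → (out tail head J U).Nonempty) →
      (∀ U, Ok tail head r U → k ≤ (out tail head (T \ J) U).card) →
      ∃ J' ⊆ T, (∀ U, Ok tail head r U → (out tail head J' U).Nonempty) ∧
        ∀ U, Ok tail head r U → k ≤ (out tail head (T \ J') U).card := by
  intro n
  induction n using Nat.strong_induction_on with
  | _ n ih =>
  intro J R hn hJ hR hr hJR hd hi
  by_cases hRu : R = Finset.univ
  · refine ⟨J, hJ, fun U hU => hd U hU ?_, hi⟩
    rw [hRu, Finset.inter_univ]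
    exact hU.1
  have hWne : (Rᶜ).Nonempty := by
    rw [Finset.nonempty_iff_ne_empty]
    intro h0
    exact hRu ((Finset.compl_eq_empty_iff R).1 h0)
  have hW : Ok tail head r Rᶜ := by
    refine ⟨hWne, by simpa using hr, fun a ha => ?_⟩
    rw [Finset.mem_compl] at ha ⊢
    exact fun h' => ha (hR a h')
  -- the next arc
  obtain ⟨e, heT, heJ, htW, hhR, hok⟩ : ∃ e ∈ T, e ∉ J ∧ tail e ∉ R ∧ head e ∈ R ∧
      ∀ U, Ok tail head r U → tail e ∈ U → head e ∉ U →
        k + 1 ≤ (out tail head (T \ J) U).card := by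
    classical
    set 𝒯 : Finset (Finset V) := Finset.univ.filter fun U => Ok tail head r U ∧
      (out tail head (T \ J) U).card ≤ k ∧ (U ∩ Rᶜ).Nonempty with h𝒯
    rcases 𝒯.eq_empty_or_nonempty with h0 | hne
    · have h1 : 0 < (out tail head T Rᶜ).card := by
        have := h _ hW
        omega
      obtain ⟨e, he⟩ := Finset.card_pos.1 h1
      rw [mem_out] at he
      obtain ⟨heT, ht, hh⟩ := he
      rw [Finset.mem_compl] at ht
      rw [Finset.mem_compl, not_not] at hh
      refine ⟨e, heT, fun hJe => ht (hJR e hJe), ht, hh, fun U hU htU hhU => ?_⟩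
      by_contra hlt
      have : U ∈ 𝒯 := by
        rw [h𝒯, Finset.mem_filter]
        exact ⟨Finset.mem_univ _, hU, by omega, ⟨tail e, by simp [htU, ht]⟩⟩
      rw [h0] at this
      simp at this
    · obtain ⟨U, hU𝒯, hUmin⟩ := Finset.exists_min_image 𝒯 Finset.card hne
      rw [h𝒯, Finset.mem_filter] at hU𝒯
      obtain ⟨_, hU, hUk, hUW⟩ := hU𝒯
      have hUWok := hU.inter hW hUW
      have h1 : out tail head (T \ J) (U ∩ Rᶜ) = out tail head T (U ∩ Rᶜ) := by
        ext a
        rw [mem_out, mem_out, Finset.mem_sdiff]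
        constructor
        · rintro ⟨⟨h1, _⟩, h2⟩
          exact ⟨h1, h2⟩
        · rintro ⟨h1, h2, h3⟩
          refine ⟨⟨h1, fun h4 => ?_⟩, h2, h3⟩
          have := hJR a h4
          rw [Finset.mem_inter, Finset.mem_compl] at h2
          exact h2.2 this
      have h2 : (out tail head (T \ J) U).card < (out tail head (T \ J) (U ∩ Rᶜ)).card := by
        rw [h1]
        have := h _ hUWok
        omega
      obtain ⟨e, he1, he2⟩ := Finset.exists_mem_notMem_of_card_lt_card h2
      rw [mem_out, Finset.mem_sdiff, Finset.mem_inter, Finset.mem_compl] at he1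
      rw [mem_out, Finset.mem_sdiff] at he2
      obtain ⟨⟨heT, heJ⟩, ⟨htU, htR⟩, hh⟩ := he1
      have hhU : head e ∈ U := by
        by_contra h'
        exact he2 ⟨⟨heT, heJ⟩, htU, h'⟩
      have hhR : head e ∈ R := by
        by_contra h'
        exact hh (Finset.mem_inter.2 ⟨hhU, Finset.mem_compl.2 h'⟩)
      refine ⟨e, heT, heJ, htR, hhR, fun U' hU' htU' hhU' => ?_⟩
      by_contra hlt
      have hin : tail e ∈ U ∩ U' := Finset.mem_inter.2 ⟨htU, htU'⟩
      have h3 := hU.inter hU' ⟨_, hin⟩
      have h4 := hi _ (hU.union hU')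
      have h5 := submod (tail := tail) (head := head) (T \ J) U U'
      have h6 : U ∩ U' ∈ 𝒯 := by
        rw [h𝒯, Finset.mem_filter]
        refine ⟨Finset.mem_univ _, h3, by omega, ⟨tail e, ?_⟩⟩
        rw [Finset.mem_inter, Finset.mem_compl]
        exact ⟨hin, htR⟩
      have h7 := hUmin _ h6
      have h8 : (U ∩ U').card < U.card := by
        refine Finset.card_lt_card ⟨Finset.inter_subset_left, fun hsub => ?_⟩
        exact hhU' (Finset.mem_inter.1 (hsub hhU)).2
      omega
  classical
  set R' : Finset V := R ∪ Finset.univ.filter fun x => Reach tail head (tail e) x with hR'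
  have hte : tail e ∈ R' := by
    rw [hR', Finset.mem_union, Finset.mem_filter]
    exact Or.inr ⟨Finset.mem_univ _, Relation.ReflTransGen.refl⟩
  have hRR' : R ⊆ R' := Finset.subset_union_left
  refine ih (R'ᶜ).card ?_ (insert e J) R' rfl ?_ ?_ (hRR' hr) ?_ ?_ ?_
  · rw [← hn]
    refine Finset.card_lt_card ⟨Finset.compl_subset_compl.2 hRR', fun hsub => ?_⟩
    have := hsub (Finset.mem_compl.2 htW)
    exact (Finset.mem_compl.1 this) hte
  · intro a ha
    rcases Finset.mem_insert.1 ha with rfl | ha
    · exact heT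
    · exact hJ ha
  · intro a ha
    rw [hR', Finset.mem_union, Finset.mem_filter] at ha ⊢
    rcases ha with ha | ⟨_, ha⟩
    · exact Or.inl (hR a ha)
    · exact Or.inr ⟨Finset.mem_univ _, ha.tail ⟨a, rfl, rfl⟩⟩
  · intro a ha
    rcases Finset.mem_insert.1 ha with rfl | ha
    · exact hte
    · exact hRR' (hJR a ha)
  · intro U hU hne
    by_cases h1 : (U ∩ R).Nonempty
    · obtain ⟨a, ha⟩ := hd U hU h1
      rw [mem_out] at ha
      exact ⟨a, mem_out.2 ⟨Finset.mem_insert_of_mem ha.1, ha.2⟩⟩
    · obtain ⟨x, hx⟩ := hne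
      rw [Finset.mem_inter, hR', Finset.mem_union, Finset.mem_filter] at hx
      obtain ⟨hxU, hx | ⟨_, hx⟩⟩ := hx
      · exact absurd ⟨x, Finset.mem_inter.2 ⟨hxU, hx⟩⟩ h1
      · refine ⟨e, mem_out.2 ⟨Finset.mem_insert_self _ _, closed_reach hU.2.2 hx hxU, fun h2 => ?_⟩⟩
        exact h1 ⟨head e, Finset.mem_inter.2 ⟨h2, hhR⟩⟩
  · intro U hU
    have h1 : (out tail head (T \ J) U).erase e ⊆ out tail head (T \ insert e J) U := by
      intro a ha
      rw [Finset.mem_erase, mem_out, Finset.mem_sdiff] at ha
      rw [mem_out, Finset.mem_sdiff, Finset.mem_insert]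
      exact ⟨⟨ha.2.1.1, fun h' => h'.elim ha.1 ha.2.1.2⟩, ha.2.2⟩
    refine le_trans ?_ (Finset.card_le_card h1)
    by_cases h2 : e ∈ out tail head (T \ J) U
    · rw [Finset.card_erase_of_mem h2]
      rw [mem_out] at h2
      have := hok U hU h2.2.1 h2.2.2
      omega
    · rw [Finset.erase_eq_of_notMem h2]
      exact hi U hU

theorem extract (r : V) (T : Finset A) (k : ℕ)
    (h : ∀ U, Ok tail head r U → k + 1 ≤ (out tail head T U).card) :
    ∃ J ⊆ T, (∀ U, Ok tail head r U → (out tail head J U).Nonempty) ∧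
        ∀ U, Ok tail head r U → k ≤ (out tail head (T \ J) U).card := by
  classical
  refine extract_aux r T k h _ ∅ (Finset.univ.filter fun x => Reach tail head r x) rfl
    (Finset.empty_subset _) ?_ ?_ ?_ ?_ ?_
  · intro a ha
    rw [Finset.mem_filter] at ha ⊢
    exact ⟨Finset.mem_univ _, ha.2.tail ⟨a, rfl, rfl⟩⟩
  · simp only [Finset.mem_filter, Finset.mem_univ, true_and]
    exact Relation.ReflTransGen.refl
  · intro e he
    simp at he
  · rintro U hU ⟨x, hx⟩
    rw [Finset.mem_inter, Finset.mem_filter] at hx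
    exact absurd (closed_reach hU.2.2 hx.2.2 hx.1) hU.2.1
  · intro U hU
    rw [Finset.sdiff_empty]
    have := h U hU
    omega

/-- A minimal cover of the nonempty sets which no arc enters and which do not contain `r`. -/
def MinCover (tail head : A → V) (r : V) (J : Finset A) : Prop :=
  (∀ U, Ok tail head r U → (out tail head J U).Nonempty) ∧
    ∀ e ∈ J, ∃ U, Ok tail head r U ∧ out tail head J U = {e}

theorem exists_minCover (r : V) : ∀ n : ℕ, ∀ J : Finset A, J.card = n →
    (∀ U, Ok tail head r U → (out tail head J U).Nonempty) →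
    ∃ J' ⊆ J, MinCover tail head r J' := by
  intro n
  induction n using Nat.strong_induction_on with
  | _ n ih =>
  intro J hn hJ
  by_cases h : ∃ e ∈ J, ∀ U, Ok tail head r U → (out tail head (J.erase e) U).Nonempty
  · obtain ⟨e, he, h⟩ := h
    obtain ⟨J', hJ', hm⟩ := ih (J.erase e).card (by
      rw [← hn]; exact Finset.card_lt_card (Finset.erase_ssubset he)) (J.erase e) rfl h
    exact ⟨J', hJ'.trans (Finset.erase_subset _ _), hm⟩
  · refine ⟨J, Finset.Subset.refl _, hJ, fun e he => ?_⟩
    by_contra hcon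
    apply h
    refine ⟨e, he, fun U hU => ?_⟩
    by_contra hem
    apply hcon
    refine ⟨U, hU, ?_⟩
    rw [Finset.not_nonempty_iff_eq_empty] at hem
    obtain ⟨a, ha⟩ := hJ U hU
    have h1 : ∀ b ∈ out tail head J U, b = e := by
      intro b hb
      by_contra hbe
      have : b ∈ out tail head (J.erase e) U := by
        rw [mem_out] at hb ⊢
        exact ⟨Finset.mem_erase.2 ⟨hbe, hb.1⟩, hb.2⟩
      rw [hem] at this
      simp at this
    exact Finset.eq_singleton_iff_unique_mem.2 ⟨h1 a ha ▸ ha, h1⟩

theorem packing (r : V) : ∀ (k : ℕ) (T : Finset A),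
    (∀ U, Ok tail head r U → k ≤ (out tail head T U).card) →
    ∃ J : Fin k → Finset A, (∀ i, J i ⊆ T) ∧ (∀ i j, i ≠ j → Disjoint (J i) (J j)) ∧
      ∀ i, MinCover tail head r (J i) := by
  intro k
  induction k with
  | zero => exact fun T _ => ⟨Fin.elim0, fun i => i.elim0, fun i => i.elim0, fun i => i.elim0⟩
  | succ k ih =>
    intro T hT
    obtain ⟨J0, hJ0T, hJ0, hrest⟩ := extract r T k hT
    obtain ⟨J1, hJ10, hJ1⟩ := exists_minCover r _ J0 rfl hJ0
    obtain ⟨J, hJT, hJd, hJm⟩ := ih (T \ J0) hrest
    have hdis : ∀ j, Disjoint J1 (J j) := fun j =>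
      (Finset.disjoint_sdiff.mono_right (hJT j)).mono_left hJ10
    refine ⟨Fin.cons J1 J, ?_, ?_, ?_⟩
    · intro i
      refine Fin.cases ?_ (fun j => ?_) i
      · simpa using hJ10.trans hJ0T
      · simpa using (hJT j).trans Finset.sdiff_subset
    · intro i j
      refine Fin.cases ?_ (fun i => ?_) i <;> refine Fin.cases ?_ (fun j => ?_) j
      · intro h
        exact absurd rfl h
      · intro _
        simpa using hdis j
      · intro _
        simpa using (hdis i).symm
      · intro h
        simpa using hJd i j (fun h' => h (by rw [h']))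
    · intro i
      refine Fin.cases ?_ (fun j => ?_) i
      · simpa using hJ1
      · simpa using hJm j

/-- The arcs of a minimal cover entering a sink component. -/
theorem block {r : V} {J : Finset A} (hJ : MinCover tail head r J) {B : Finset V}
    (hB : IsSink tail head B) (hr : r ∉ B) :
    (∀ e ∈ into tail head J B, ∀ e' ∈ into tail head J B, e ≠ e' →
      ¬ ∃ z, Reach tail head z (tail e) ∧ Reach tail head z (tail e')) ∧
    ((into tail head J B).Nonempty → ∃ a, tail a ∉ B ∧ head a ∈ B ∧
      ∀ e ∈ into tail head J B, ¬ Reach tail head (tail a) (tail e)) := by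
  classical
  have hU : ∀ e ∈ into tail head J B, ∃ U, Ok tail head r U ∧ out tail head J U = {e} :=
    fun e he => hJ.2 e (mem_into.1 he).1
  choose! U hUok hUe using hU
  have htail : ∀ e ∈ into tail head J B, tail e ∈ U e ∧ head e ∉ U e := by
    intro e he
    have : e ∈ out tail head J (U e) := by rw [hUe e he]; exact Finset.mem_singleton_self e
    exact (mem_out.1 this).2
  have hBU : ∀ e ∈ into tail head J B, ∀ x ∈ B, x ∉ U e := by
    intro e he x hx hxU
    exact (htail e he).2 (closed_reach (hUok e he).2.2 (hB.2.2 _ (mem_into.1 he).2.2 x hx) hxU)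
  refine ⟨?_, ?_⟩
  · rintro e he e' he' hne ⟨z, hz, hz'⟩
    have h1 : z ∈ U e := closed_reach (hUok e he).2.2 hz (htail e he).1
    have h2 : z ∈ U e' := closed_reach (hUok e' he').2.2 hz' (htail e' he').1
    obtain ⟨j, hj⟩ := hJ.1 _ ((hUok e he).inter (hUok e' he') ⟨z, Finset.mem_inter.2 ⟨h1, h2⟩⟩)
    rw [mem_out, Finset.mem_inter, Finset.mem_inter] at hj
    obtain ⟨hjJ, ⟨hj1, hj2⟩, hj3⟩ := hj
    have key : ∀ f ∈ into tail head J B, ∀ f' ∈ into tail head J B, f ≠ f' → tail j ∈ U f →
        tail j ∈ U f' → head j ∉ U f → False := by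
      intro f hf f' hf' hff h3 h4 h5
      have h6 : j ∈ out tail head J (U f) := mem_out.2 ⟨hjJ, h3, h5⟩
      rw [hUe f hf, Finset.mem_singleton] at h6
      have h7 : j ∈ out tail head J (U f') := by
        refine mem_out.2 ⟨hjJ, h4, ?_⟩
        rw [h6]
        exact hBU f' hf' _ (mem_into.1 hf).2.2
      rw [hUe f' hf', Finset.mem_singleton] at h7
      exact hff (h6.symm.trans h7)
    by_cases h8 : head j ∈ U e
    · exact key e' he' e he hne.symm hj2 hj1 fun h9 => hj3 ⟨h8, h9⟩
    · exact key e he e' he' hne hj1 hj2 h8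
  · rintro ⟨e0, he0⟩
    by_contra hcon
    push Not at hcon
    set W : Finset V := B ∪ (into tail head J B).biUnion U with hW
    have hWok : Ok tail head r W := by
      refine ⟨?_, ?_, ?_⟩
      · exact hB.1.mono Finset.subset_union_left
      · rw [hW, Finset.mem_union, Finset.mem_biUnion]
        rintro (h1 | ⟨e, he, h1⟩)
        · exact hr h1
        · exact (hUok e he).2.1 h1
      · intro a ha
        rw [hW, Finset.mem_union, Finset.mem_biUnion] at ha ⊢
        rcases ha with h1 | ⟨e, he, h1⟩
        · by_cases h2 : tail a ∈ B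
          · exact Or.inl h2
          · obtain ⟨e, he, h3⟩ := hcon a h2 h1
            exact Or.inr ⟨e, he, closed_reach (hUok e he).2.2 h3 (htail e he).1⟩
        · exact Or.inr ⟨e, he, (hUok e he).2.2 a h1⟩
    obtain ⟨j, hj⟩ := hJ.1 W hWok
    rw [mem_out, hW, Finset.mem_union, Finset.mem_biUnion, Finset.mem_union,
      Finset.mem_biUnion, not_or] at hj
    obtain ⟨hjJ, h1 | ⟨e, he, h1⟩, h2, h3⟩ := hj
    · exact h2 (hB.2.1 j h1)
    · have h4 : j ∈ out tail head J (U e) :=
        mem_out.2 ⟨hjJ, h1, fun h5 => h3 ⟨e, he, h5⟩⟩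
      rw [hUe e he, Finset.mem_singleton] at h4
      rw [h4] at h2
      exact h2 (mem_into.1 he).2.2

/-- Completion of the colouring of a block. -/
theorem complete (k : ℕ) (E : Finset A) (J : Fin (k + 1) → Finset A)
    (hd : ∀ i j, i ≠ j → Disjoint (J i) (J j)) (x : ℕ) (hx : 1 ≤ x)
    (hJ : ∀ i, (E ∩ J i).card ≤ x) (hE : k * x + 1 ≤ E.card) :
    ∃ g : A → Fin (k + 1), (∀ e, ∀ i, e ∈ J i → g e = i) ∧ ∀ i, ∃ e ∈ E, g e = i := by
  classical
  set G : Finset (A → Fin (k + 1)) := Finset.univ.filter fun g => ∀ e, ∀ i, e ∈ J i → g e = i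
    with hG
  have hGne : G.Nonempty := by
    refine ⟨fun e => if h : ∃ i, e ∈ J i then h.choose else 0, ?_⟩
    rw [hG, Finset.mem_filter]
    refine ⟨Finset.mem_univ _, fun e i hi => ?_⟩
    have h : ∃ i, e ∈ J i := ⟨i, hi⟩
    simp only [dif_pos h]
    by_contra hne
    exact Finset.disjoint_left.1 (hd _ _ hne) h.choose_spec hi
  obtain ⟨g, hg, hmax⟩ := Finset.exists_max_image G (fun g => (E.image g).card) hGne
  rw [hG, Finset.mem_filter] at hg
  refine ⟨g, hg.2, fun i => ?_⟩
  by_contra hcon
  push Not at hcon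
  -- every colour class is small
  have hclass : ∀ j, (E.filter fun e => g e = j).card ≤ x := by
    intro j
    by_cases hj : (E.filter fun e => g e = j) ⊆ J j
    · refine le_trans (Finset.card_le_card ?_) (hJ j)
      intro e he
      exact Finset.mem_inter.2 ⟨(Finset.mem_filter.1 he).1, hj he⟩
    · rw [Finset.not_subset] at hj
      obtain ⟨e, he, heJ⟩ := hj
      rw [Finset.mem_filter] at he
      refine le_trans (Finset.card_le_one.2 ?_) hx
      -- all elements are equal to e
      have hall : ∀ e' ∈ E.filter (fun e => g e = j), e' = e := by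
        intro e' he'
        rw [Finset.mem_filter] at he'
        by_contra hne
        have hg' : Function.update g e i ∈ G := by
          rw [hG, Finset.mem_filter]
          refine ⟨Finset.mem_univ _, fun b l hb => ?_⟩
          have hbe : b ≠ e := by
            rintro rfl
            have := hg.2 b l hb
            rw [he.2] at this
            subst this
            exact heJ hb
          rw [Function.update_of_ne hbe]
          exact hg.2 b l hb
        have h1 := hmax _ hg'
        have h2 : insert i (E.image g) ⊆ E.image (Function.update g e i) := by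
          intro l hl
          rcases Finset.mem_insert.1 hl with rfl | hl
          · exact Finset.mem_image.2 ⟨e, he.1, Function.update_self _ _ _⟩
          · obtain ⟨b, hb, rfl⟩ := Finset.mem_image.1 hl
            by_cases hbe : b = e
            · subst hbe
              refine Finset.mem_image.2 ⟨e', he'.1, ?_⟩
              rw [Function.update_of_ne hne, he'.2, he.2]
            · exact Finset.mem_image.2 ⟨b, hb, Function.update_of_ne hbe _ _⟩
        have h3 : i ∉ E.image g := by
          rw [Finset.mem_image]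
          rintro ⟨b, hb, hbi⟩
          exact hcon b hb hbi
        have h4 := Finset.card_le_card h2
        rw [Finset.card_insert_of_notMem h3] at h4
        omega
      intro a ha b hb
      rw [hall a ha, hall b hb]
  have h5 : E.card = ∑ j, (E.filter fun e => g e = j).card :=
    Finset.card_eq_sum_card_fiberwise (fun e _ => Finset.mem_univ _)
  have h6 : (E.filter fun e => g e = i).card = 0 := by
    rw [Finset.card_eq_zero, Finset.filter_eq_empty_iff]
    exact fun e he => hcon e he
  rw [← Finset.add_sum_erase _ _ (Finset.mem_univ i), h6, zero_add] at h5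
  have h7 : ∑ j ∈ Finset.univ.erase i, (E.filter fun e => g e = j).card ≤ k * x := by
    refine (Finset.sum_le_card_nsmul _ _ x fun j _ => hclass j).trans ?_
    rw [Finset.card_erase_of_mem (Finset.mem_univ _), Finset.card_univ, Fintype.card_fin,
      smul_eq_mul]
    simp
  omega

/-- Every nonempty set which no arc leaves contains a sink component. -/
theorem exists_sink : ∀ n : ℕ, ∀ B : Finset V, B.card = n → B.Nonempty →
    (∀ a, tail a ∈ B → head a ∈ B) → ∃ C ⊆ B, IsSink tail head C := by
  intro n
  induction n using Nat.strong_induction_on with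
  | _ n ih =>
  classical
  intro B hn hne hB
  by_cases h : ∀ x ∈ B, ∀ y ∈ B, Reach tail head x y
  · exact ⟨B, Finset.Subset.refl _, hne, hB, h⟩
  · push Not at h
    obtain ⟨x, hx, y, hy, hxy⟩ := h
    set C : Finset V := Finset.univ.filter fun z => Reach tail head x z with hC
    have hCB : C ⊆ B := by
      intro z hz
      rw [hC, Finset.mem_filter] at hz
      exact fclosed_reach hB hz.2 hx
    have hlt : C.card < n := by
      rw [← hn]
      refine Finset.card_lt_card ⟨hCB, fun hsub => ?_⟩
      have := hsub hy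
      rw [hC, Finset.mem_filter] at this
      exact hxy this.2
    obtain ⟨D, hD, hDs⟩ := ih C.card hlt C rfl ⟨x, by
      rw [hC, Finset.mem_filter]
      exact ⟨Finset.mem_univ _, Relation.ReflTransGen.refl⟩⟩ (by
      intro a ha
      rw [hC, Finset.mem_filter] at ha ⊢
      exact ⟨Finset.mem_univ _, ha.2.tail ⟨a, rfl, rfl⟩⟩)
    exact ⟨D, hD.trans hCB, hDs⟩

theorem sink_unique {B C : Finset V} (hB : IsSink tail head B) (hC : IsSink tail head C) {x : V}
    (hxB : x ∈ B) (hxC : x ∈ C) : B = C := by
  apply Finset.Subset.antisymm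
  · intro y hy
    exact fclosed_reach hC.2.1 (hB.2.2 x hxB y hy) hxC
  · intro y hy
    exact fclosed_reach hB.2.1 (hC.2.2 x hxC y hy) hxB

end

end Pool.Agent.Dij
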