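import Mathlib

/-!
Digraphs given by the maps `tail`, `head` from arcs to vertices: definitions.
-/

namespace Pool.Agent.Dij

/-- The arcs of `X` which leave `U`. -/
def out {V A : Type*} [DecidableEq V] (tail head : A → V) (X : Finset A) (U : Finset V) :
    Finset A :=
  X.filter fun a => tail a ∈ U ∧ head a ∉ U

/-- The arcs of `X` which enter `B`. -/
def into {V A : Type*} [DecidableEq V] (tail head : A → V) (X : Finset A) (B : Finset V) :
    Finset A :=
  X.filter fun a => tail a ∉ B ∧ head a ∈ B

/-- There is a directed path from `x` to `y`. -/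
def Reach {V A : Type*} (tail head : A → V) (x y : V) : Prop :=
  Relation.ReflTransGen (fun u v => ∃ a : A, tail a = u ∧ head a = v) x y

/-- `B` is a sink component: nonempty, strongly connected, and no arc leaves `B`. -/
def IsSink {V A : Type*} (tail head : A → V) (B : Finset V) : Prop :=
  B.Nonempty ∧ (∀ a, tail a ∈ B → head a ∈ B) ∧ ∀ x ∈ B, ∀ y ∈ B, Reach tail head x y

end Pool.Agent.Dij
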