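import Mathlib

/-!
Orientations of a finite multigraph in which the vertices other than a given one have at least as many
arcs out as in, up to a small total defect.
-/

namespace Pool.Agent.Dij

section

variable {V E : Type*} [Fintype V] [DecidableEq V] [Fintype E] [DecidableEq E]

/-- boundary of an edge at a vertex -/
def bd (t h : E → V) (e : E) (v : V) : ℤ :=
  (if t e = v then 1 else 0) - (if h e = v then 1 else 0)

/-- sign of a direction -/
def sg (b : Bool) : ℤ := if b then 1 else -1

theorem sg_not (b : Bool) : sg (!b) = - sg b := by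
  cases b <;> simp [sg]

/-- net flow out of a vertex -/
def net (t h : E → V) (o : E → Bool) (v : V) : ℤ := ∑ e, sg (o e) * bd t h e v

theorem sum_bd (t h : E → V) (e : E) (X : Finset V) :
    ∑ v ∈ X, bd t h e v = (if t e ∈ X then 1 else 0) - (if h e ∈ X then 1 else 0) := by
  simp [bd, Finset.sum_sub_distrib]

theorem sum_net (t h : E → V) (o : E → Bool) (X : Finset V) :
    ∑ v ∈ X, net t h o v =
      ∑ e, sg (o e) * ((if t e ∈ X then 1 else 0) - (if h e ∈ X then 1 else 0)) := by
  unfold net
  rw [Finset.sum_comm]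
  refine Finset.sum_congr rfl fun e _ => ?_
  rw [← Finset.mul_sum, sum_bd]

/-- one unit can be moved from `v` to `w` along edges inside of `X` -/
def Mv (t h : E → V) (o : E → Bool) (X : Finset V) (v w : V) : Prop :=
  ∃ P : Finset E, (∀ e ∈ P, t e ∈ X ∧ h e ∈ X) ∧
    ∀ u, ∑ e ∈ P, sg (o e) * bd t h e u = (if v = u then 1 else 0) - (if w = u then 1 else 0)

theorem exists_closed (t h : E → V) (o : E → Bool) (v : V) :
    ∃ X : Finset V, v ∈ X ∧ (∀ w ∈ X, Mv t h o X v w) ∧
      (∀ e, o e = true → t e ∈ X → h e ∈ X) ∧ ∀ e, o e = false → h e ∈ X → t e ∈ X := by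
  classical
  set F : Finset (Finset V) := Finset.univ.filter fun X => v ∈ X ∧ ∀ w ∈ X, Mv t h o X v w with hF
  have hne : F.Nonempty := by
    refine ⟨{v}, ?_⟩
    rw [hF, Finset.mem_filter]
    refine ⟨Finset.mem_univ _, Finset.mem_singleton_self _, fun w hw => ?_⟩
    rw [Finset.mem_singleton] at hw
    subst hw
    exact ⟨∅, by simp, by simp⟩
  obtain ⟨X, hX, hmax⟩ := Finset.exists_max_image F Finset.card hne
  rw [hF, Finset.mem_filter] at hX
  obtain ⟨_, hvX, hX⟩ := hX
  have key : ∀ e : E, ∀ x y : V, x ∈ X → y ∉ X →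
      (∀ u, sg (o e) * bd t h e u = (if x = u then 1 else 0) - (if y = u then 1 else 0)) →
      (t e ∈ insert y X ∧ h e ∈ insert y X) → (t e ∉ X ∨ h e ∉ X) → False := by
    intro e x y hx hy hb hins hout
    have hmem : insert y X ∈ F := by
      rw [hF, Finset.mem_filter]
      refine ⟨Finset.mem_univ _, Finset.mem_insert_of_mem hvX, fun w hw => ?_⟩
      rcases Finset.mem_insert.1 hw with rfl | hw
      · obtain ⟨P, hP1, hP2⟩ := hX x hx
        have heP : e ∉ P := by
          intro heP
          have := hP1 e heP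
          rcases hout with h1 | h1
          · exact h1 this.1
          · exact h1 this.2
        refine ⟨insert e P, ?_, ?_⟩
        · intro f hf
          rcases Finset.mem_insert.1 hf with rfl | hf
          · exact hins
          · exact ⟨Finset.mem_insert_of_mem (hP1 f hf).1, Finset.mem_insert_of_mem (hP1 f hf).2⟩
        · intro u
          rw [Finset.sum_insert heP, hb u, hP2 u]
          ring
      · obtain ⟨P, hP1, hP2⟩ := hX w hw
        exact ⟨P, fun f hf => ⟨Finset.mem_insert_of_mem (hP1 f hf).1,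
          Finset.mem_insert_of_mem (hP1 f hf).2⟩, hP2⟩
    have h1 := hmax _ hmem
    rw [Finset.card_insert_of_notMem hy] at h1
    omega
  refine ⟨X, hvX, hX, ?_, ?_⟩
  · intro e he ht
    by_contra hh
    refine key e (t e) (h e) ht hh (fun u => ?_) ⟨Finset.mem_insert_of_mem ht,
      Finset.mem_insert_self _ _⟩ (Or.inr hh)
    simp [he, sg, bd]
  · intro e he hh
    by_contra ht
    refine key e (h e) (t e) hh ht (fun u => ?_) ⟨Finset.mem_insert_self _ _,
      Finset.mem_insert_of_mem hh⟩ (Or.inl ht)
    simp [he, sg, bd]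

/-- negative part -/
def np (x : ℤ) : ℤ := max (-x) 0

/-- flipping a set of edges -/
theorem net_flip (t h : E → V) (o : E → Bool) (P : Finset E) (u : V) :
    net t h (fun e => if e ∈ P then !(o e) else o e) u =
      net t h o u - 2 * ∑ e ∈ P, sg (o e) * bd t h e u := by
  unfold net
  have h1 : ∑ e ∈ P, sg (o e) * bd t h e u =
      ∑ e, if e ∈ P then sg (o e) * bd t h e u else 0 := by
    rw [Finset.sum_ite_mem, Finset.univ_inter]
  rw [h1, Finset.mul_sum, ← Finset.sum_sub_distrib]
  refine Finset.sum_congr rfl fun e _ => ?_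
  by_cases he : e ∈ P
  · simp only [he, if_true, sg_not]
    ring
  · simp only [he, if_false]
    ring

/-- the parity of the net flow -/
theorem net_parity (t h : E → V) (o : E → Bool) (v : V) :
    Odd (net t h o v) ↔ Odd ((Finset.univ.filter fun e => t e = v).card +
      (Finset.univ.filter fun e => h e = v).card) := by
  have h1 : ((Finset.univ.filter fun e => t e = v).card +
    (Finset.univ.filter fun e => h e = v).card : ℕ) =
      ∑ e, ((if t e = v then 1 else 0) + (if h e = v then 1 else 0) : ℕ) := by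
    rw [Finset.sum_add_distrib, Finset.card_filter, Finset.card_filter]
  have h5 : Even (∑ e, ((if t e = v then (1:ℤ) else 0) + (if h e = v then 1 else 0))
      - net t h o v) := by
    rw [net, ← Finset.sum_sub_distrib]
    refine Finset.even_sum _ fun e _ => ?_
    unfold bd sg
    by_cases h6 : t e = v <;> by_cases h7 : h e = v <;> cases o e <;>
      simp only [h6, h7, if_true, if_false] <;> decide
  rw [h1, ← Int.odd_coe_nat]
  push_cast
  obtain ⟨k, hk⟩ := h5
  constructor
  · rintro ⟨l, hl⟩
    exact ⟨k + l, by omega⟩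
  · rintro ⟨l, hl⟩
    exact ⟨l - k, by omega⟩

/-- An orientation in which the vertices other than `r` lack at most `m` units in total. -/
theorem orient (t h : E → V) (r : V) (m : ℕ)
    (hW : ∀ W : Finset V, r ∉ W →
      (W.filter fun v => Odd ((Finset.univ.filter fun e => t e = v).card +
        (Finset.univ.filter fun e => h e = v).card)).card ≤
      (Finset.univ.filter fun e => ¬ (t e ∈ W ↔ h e ∈ W)).card + 2 * m) :
    ∃ o : E → Bool, ∑ v ∈ Finset.univ.erase r, np (net t h o v) ≤ m := by
  classical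
  obtain ⟨o, _, hmin⟩ := Finset.exists_min_image (Finset.univ : Finset (E → Bool))
    (fun o => ∑ v ∈ Finset.univ.erase r, np (net t h o v)) Finset.univ_nonempty
  refine ⟨o, ?_⟩
  have hcl := fun v => exists_closed h t o v
  choose X hvX hX hc1 hc2 using hcl
  have hflip : ∀ v, ∀ w ∈ X v, ∃ o' : E → Bool, ∀ u, net t h o' u =
      net t h o u - 2 * ((if w = u then 1 else 0) - (if v = u then 1 else 0)) := by
    intro v w hw
    obtain ⟨P, _, hP⟩ := hX v w hw
    refine ⟨fun e => if e ∈ P then !(o e) else o e, fun u => ?_⟩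
    rw [net_flip]
    have h1 : ∑ e ∈ P, sg (o e) * bd t h e u = - ∑ e ∈ P, sg (o e) * bd h t e u := by
      rw [← Finset.sum_neg_distrib]
      refine Finset.sum_congr rfl fun e _ => ?_
      unfold bd
      ring
    rw [h1, hP u]
    ring
  have hr : ∀ v, v ≠ r → r ∈ X v → np (net t h o v) ≤ np (net t h o v + 2) := by
    intro v hv hrX
    obtain ⟨o', ho'⟩ := hflip v r hrX
    have h1 := hmin o' (Finset.mem_univ _)
    have hvm : v ∈ Finset.univ.erase r := Finset.mem_erase.2 ⟨hv, Finset.mem_univ _⟩
    rw [← Finset.add_sum_erase _ _ hvm, ← Finset.add_sum_erase _ _ hvm] at h1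
    have h2 : ∑ x ∈ (Finset.univ.erase r).erase v, np (net t h o' x) =
        ∑ x ∈ (Finset.univ.erase r).erase v, np (net t h o x) := by
      refine Finset.sum_congr rfl fun x hx => ?_
      rw [Finset.mem_erase, Finset.mem_erase] at hx
      rw [ho' x, if_neg (fun h => hx.2.1 h.symm), if_neg (fun h => hx.1 h.symm)]
      simp
    rw [h2] at h1
    have h3 : net t h o' v = net t h o v + 2 := by
      rw [ho' v, if_neg (fun h => hv h.symm), if_pos rfl]
      ring
    rw [h3] at h1
    linarith
  have hw : ∀ v, v ≠ r → ∀ w ∈ X v, w ≠ r → w ≠ v →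
      np (net t h o v) + np (net t h o w) ≤ np (net t h o v + 2) + np (net t h o w - 2) := by
    intro v hv w hwX hwr hwv
    obtain ⟨o', ho'⟩ := hflip v w hwX
    have h1 := hmin o' (Finset.mem_univ _)
    have hvm : v ∈ Finset.univ.erase r := Finset.mem_erase.2 ⟨hv, Finset.mem_univ _⟩
    have hwm : w ∈ (Finset.univ.erase r).erase v :=
      Finset.mem_erase.2 ⟨hwv, Finset.mem_erase.2 ⟨hwr, Finset.mem_univ _⟩⟩
    rw [← Finset.add_sum_erase _ _ hvm, ← Finset.add_sum_erase _ _ hvm,
      ← Finset.add_sum_erase _ _ hwm, ← Finset.add_sum_erase _ _ hwm] at h1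
    have h2 : ∑ x ∈ ((Finset.univ.erase r).erase v).erase w, np (net t h o' x) =
        ∑ x ∈ ((Finset.univ.erase r).erase v).erase w, np (net t h o x) := by
      refine Finset.sum_congr rfl fun x hx => ?_
      rw [Finset.mem_erase, Finset.mem_erase] at hx
      rw [ho' x, if_neg (fun h => hx.1 h.symm), if_neg (fun h => hx.2.1 h.symm)]
      simp
    rw [h2] at h1
    have h3 : net t h o' v = net t h o v + 2 := by
      rw [ho' v, if_neg hwv, if_pos rfl]
      ring
    have h4 : net t h o' w = net t h o w - 2 := by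
      rw [ho' w, if_pos rfl, if_neg (fun h => hwv h.symm)]
      ring
    rw [h3, h4] at h1
    linarith
  have hnet : ∀ Y : Finset V, (∀ e, o e = true → h e ∈ Y → t e ∈ Y) →
      (∀ e, o e = false → t e ∈ Y → h e ∈ Y) → ∑ u ∈ Y, net t h o u =
        ((Finset.univ.filter fun e => ¬ (t e ∈ Y ↔ h e ∈ Y)).card : ℤ) := by
    intro Y h1 h2
    rw [sum_net, Finset.card_filter]
    push_cast
    refine Finset.sum_congr rfl fun e _ => ?_
    unfold sg
    cases ho : o e
    · have := h2 e ho
      by_cases h3 : t e ∈ Y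
      · simp [h3, this h3]
      · by_cases h4 : h e ∈ Y <;> simp [h3, h4]
    · have := h1 e ho
      by_cases h3 : h e ∈ Y
      · simp [h3, this h3]
      · by_cases h4 : t e ∈ Y <;> simp [h3, h4]
  -- the vertices which lack something
  have hrX : ∀ v, v ≠ r → net t h o v < 0 → r ∉ X v := by
    intro v hv hneg hrX
    have := hr v hv hrX
    unfold np at this
    omega
  have hX1 : ∀ v, v ≠ r → net t h o v < 0 → ∀ w ∈ X v, net t h o w ≤ 1 := by
    intro v hv hneg w hwX
    by_cases hwv : w = v
    · rw [hwv]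
      omega
    · have h1 := hw v hv w hwX (fun h => hrX v hv hneg (h ▸ hwX)) hwv
      unfold np at h1
      omega
  have hge : ∀ v, v ≠ r → -1 ≤ net t h o v := by
    intro v hv
    by_contra hlt
    push Not at hlt
    have h1 := hnet (X v) (hc1 v) (hc2 v)
    have h2 : ∑ u ∈ X v, net t h o u < 0 := by
      refine Finset.sum_neg' (fun w hwX => ?_) ⟨v, hvX v, by omega⟩
      by_cases hwv : w = v
      · rw [hwv]
        omega
      · have h3 := hw v hv w hwX (fun h => hrX v hv (by omega) (h ▸ hwX)) hwv
        unfold np at h3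
        omega
    have h3 : (0 : ℤ) ≤ ((Finset.univ.filter fun e => ¬ (t e ∈ X v ↔ h e ∈ X v)).card : ℤ) := by
      positivity
    omega
  set Ng : Finset V := (Finset.univ.erase r).filter fun v => net t h o v < 0 with hNg
  set Y : Finset V := Ng.biUnion X with hY
  have hYr : r ∉ Y := by
    rw [hY, Finset.mem_biUnion]
    rintro ⟨v, hv, hrv⟩
    rw [hNg, Finset.mem_filter, Finset.mem_erase] at hv
    exact hrX v hv.1.1 hv.2 hrv
  have hNgY : Ng ⊆ Y := fun v hv => by
    rw [hY, Finset.mem_biUnion]
    exact ⟨v, hv, hvX v⟩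
  have hYsum := hnet Y (by
    intro e he hh
    rw [hY, Finset.mem_biUnion] at hh ⊢
    obtain ⟨v, hv, hh⟩ := hh
    exact ⟨v, hv, hc1 v e he hh⟩) (by
    intro e he hh
    rw [hY, Finset.mem_biUnion] at hh ⊢
    obtain ⟨v, hv, hh⟩ := hh
    exact ⟨v, hv, hc2 v e he hh⟩)
  have hY1 : ∀ w ∈ Y, -1 ≤ net t h o w ∧ net t h o w ≤ 1 := by
    intro w hwY
    refine ⟨hge w (fun h => hYr (h ▸ hwY)), ?_⟩
    rw [hY, Finset.mem_biUnion] at hwY
    obtain ⟨v, hv, hwv⟩ := hwY
    rw [hNg, Finset.mem_filter, Finset.mem_erase] at hv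
    exact hX1 v hv.1.1 hv.2 w hwv
  have hodd : ∑ w ∈ Y, (2 * np (net t h o w) + net t h o w) =
      ((Y.filter fun v => Odd ((Finset.univ.filter fun e => t e = v).card +
        (Finset.univ.filter fun e => h e = v).card)).card : ℤ) := by
    rw [Finset.card_filter]
    push_cast
    refine Finset.sum_congr rfl fun w hwY => ?_
    obtain ⟨h1, h2⟩ := hY1 w hwY
    have h3 := net_parity t h o w
    have h4 : net t h o w = -1 ∨ net t h o w = 0 ∨ net t h o w = 1 := by omega
    rcases h4 with h4 | h4 | h4
    · rw [if_pos (h3.1 (by rw [h4]; decide)), h4]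
      simp [np]
    · rw [if_neg (fun h5 => by have := h3.2 h5; rw [h4] at this; exact absurd this (by decide)), h4]
      simp [np]
    · rw [if_pos (h3.1 (by rw [h4]; decide)), h4]
      simp [np]
  have hN : ∑ v ∈ Finset.univ.erase r, np (net t h o v) = ∑ v ∈ Y, np (net t h o v) := by
    symm
    refine Finset.sum_subset (fun v hv => Finset.mem_erase.2 ⟨fun h => hYr (h ▸ hv),
      Finset.mem_univ _⟩) fun v hv hvY => ?_
    have h1 : ¬ net t h o v < 0 := by
      intro h1
      apply hvY
      apply hNgY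
      rw [hNg, Finset.mem_filter]
      exact ⟨hv, h1⟩
    unfold np
    omega
  rw [hN]
  have h1 := hW Y hYr
  rw [Finset.sum_add_distrib, ← Finset.mul_sum, hYsum] at hodd
  have h2 : ((Y.filter fun v => Odd ((Finset.univ.filter fun e => t e = v).card +
        (Finset.univ.filter fun e => h e = v).card)).card : ℤ) ≤
      ((Finset.univ.filter fun e => ¬ (t e ∈ Y ↔ h e ∈ Y)).card : ℤ) + 2 * m := by
    exact_mod_cast h1
  omega

end

end Pool.Agent.Dij
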