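import Pool.Agent.Dij.Lat

/-!
Exchange of two covers: moving one of two arcs with equivalent heads to the other cover.
-/

set_option linter.unusedSectionVars false

namespace Pool.Agent.Dij

section

variable {V A : Type*} [Fintype V] [DecidableEq V] [Fintype A] [DecidableEq A]

variable {tail head : A → V}

/-- Swapping the arcs with tail in `Z = Ug ∩ Y`. -/
theorem swap {L : Finset (Finset V)} (hL : Lat L) {t1 t2 : V} {J K : Finset A}
    (hKL : ∀ U ∈ L, ∀ a ∈ K, head a ∈ U → tail a ∈ U)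
    (hJ : Cov tail head L t1 J) (hK : Cov tail head L t1 K)
    {g : A} (hgK : g ∈ K) (hg2 : ∀ U ∈ L, (head g ∈ U ↔ t2 ∈ U))
    {Ug : Finset V} (hUg : Ug ∈ L) (h1Ug : t1 ∉ Ug)
    (hUge : ∀ a ∈ K, tail a ∈ Ug → head a ∉ Ug → a = g)
    (hUgm : ∀ U ∈ L, t1 ∉ U → (∀ a ∈ K, tail a ∈ U → head a ∉ U → a = g) → U ⊆ Ug)
    (htg : tail g ∈ Ug)
    {X Y : Finset V} (hY : Y ∈ L) (hXUg : Disjoint X Ug) (h2Y : t2 ∈ Y)
    (hYe : ∀ a ∈ J, tail a ∈ Y → head a ∉ Y → tail a ∈ X)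
    (hYm : ∀ U ∈ L, t1 ∉ U → (∀ a ∈ J, tail a ∈ U ∪ Y → head a ∉ U ∪ Y → tail a ∈ X) → U ⊆ Y)
    {M : Finset V} (hMm : ∀ U ∈ L, t1 ∉ U →
      (∀ a ∈ J, tail a ∈ U → head a ∉ U → tail a ∈ Ug ∩ Y) → U ⊆ M)
    (h2M : t2 ∉ M) :
    Cov tail head L t1 (J.filter (fun a => tail a ∉ Ug ∩ Y) ∪ K.filter fun a => tail a ∈ Ug ∩ Y) ∧
    Cov tail head L t1 (K.filter (fun a => tail a ∉ Ug ∩ Y) ∪ J.filter fun a => tail a ∈ Ug ∩ Y) ∧
    tail g ∈ Ug ∩ Y := by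
  have hZL : Ug ∩ Y ∈ L := hL.inter _ hUg _ hY
  have h1Z : t1 ∉ Ug ∩ Y := fun h => h1Ug (Finset.mem_inter.1 h).1
  refine ⟨?_, ?_, ?_⟩
  · intro U hU hne h1U
    by_contra hcon
    push Not at hcon
    have hJno : ∀ a ∈ J, tail a ∈ U → tail a ∉ Ug ∩ Y → head a ∈ U := fun a ha h1 h2 =>
      hcon a (Finset.mem_union_left _ (Finset.mem_filter.2 ⟨ha, h2⟩)) h1
    have hKno : ∀ a ∈ K, tail a ∈ U → tail a ∈ Ug ∩ Y → head a ∈ U := fun a ha h1 h2 =>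
      hcon a (Finset.mem_union_right _ (Finset.mem_filter.2 ⟨ha, h2⟩)) h1
    have hUM : U ∪ (Ug ∩ Y) ⊆ M := by
      refine hMm _ (hL.union _ hU _ hZL) (fun h => (Finset.mem_union.1 h).elim h1U h1Z) ?_
      intro a ha h1 h2
      by_contra h3
      have h4 : tail a ∈ U := (Finset.mem_union.1 h1).resolve_right h3
      exact h2 (Finset.mem_union_left _ (hJno a ha h4 h3))
    have h2U : t2 ∉ U := fun h => h2M (hUM (Finset.mem_union_left _ h))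
    by_cases hUZ : (U ∩ (Ug ∩ Y)).Nonempty
    · obtain ⟨a, haK, h1, h2⟩ := hK _ (hL.inter _ hU _ hZL) hUZ
        (fun h => h1U (Finset.mem_inter.1 h).1)
      rw [Finset.mem_inter] at h1
      have h3 : head a ∈ U := hKno a haK h1.1 h1.2
      have h4 : head a ∉ Ug ∩ Y := fun h => h2 (Finset.mem_inter.2 ⟨h3, h⟩)
      by_cases h5 : head a ∈ Ug
      · have h6 : head a ∉ Y := fun h => h4 (Finset.mem_inter.2 ⟨h5, h⟩)
        have h7 : U ⊆ Y := by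
          refine hYm U hU h1U fun b hb h8 h9 => ?_
          rw [Finset.mem_union, not_or] at h9
          by_cases h10 : tail b ∈ Y
          · exact hYe b hb h10 h9.2
          · have h11 : tail b ∈ U := (Finset.mem_union.1 h8).resolve_right h10
            exact absurd (hJno b hb h11 fun h => h10 (Finset.mem_inter.1 h).2) h9.1
        exact h6 (h7 h3)
      · have h6 : a = g := hUge a haK (Finset.mem_inter.1 h1.2).1 h5
        rw [h6] at h3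
        exact h2U ((hg2 U hU).1 h3)
    · obtain ⟨b, hb, h1, h2⟩ := hJ U hU hne h1U
      exact h2 (hJno b hb h1 fun h => hUZ ⟨_, Finset.mem_inter.2 ⟨h1, h⟩⟩)
  · intro U hU hne h1U
    by_contra hcon
    push Not at hcon
    have hKno : ∀ a ∈ K, tail a ∈ U → tail a ∉ Ug ∩ Y → head a ∈ U := fun a ha h1 h2 =>
      hcon a (Finset.mem_union_left _ (Finset.mem_filter.2 ⟨ha, h2⟩)) h1
    have hJno : ∀ a ∈ J, tail a ∈ U → tail a ∈ Ug ∩ Y → head a ∈ U := fun a ha h1 h2 =>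
      hcon a (Finset.mem_union_right _ (Finset.mem_filter.2 ⟨ha, h2⟩)) h1
    have hUUg : U ∪ Ug ⊆ Ug := by
      refine hUgm _ (hL.union _ hU _ hUg) (fun h => (Finset.mem_union.1 h).elim h1U h1Ug) ?_
      intro b hb h1 h2
      rw [Finset.mem_union, not_or] at h2
      by_cases h3 : tail b ∈ Ug
      · exact hUge b hb h3 h2.2
      · have h4 : tail b ∈ U := (Finset.mem_union.1 h1).resolve_right h3
        exact absurd (hKno b hb h4 fun h => h3 (Finset.mem_inter.1 h).1) h2.1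
    by_cases hUZ : (U ∩ (Ug ∩ Y)).Nonempty
    · obtain ⟨a, haJ, h1, h2⟩ := hJ _ (hL.inter _ hU _ hZL) hUZ
        (fun h => h1U (Finset.mem_inter.1 h).1)
      rw [Finset.mem_inter] at h1
      have h3 : head a ∈ U := hJno a haJ h1.1 h1.2
      have h4 : head a ∉ Ug ∩ Y := fun h => h2 (Finset.mem_inter.2 ⟨h3, h⟩)
      have h5 : head a ∈ Ug := hUUg (Finset.mem_union_left _ h3)
      have h6 : head a ∉ Y := fun h => h4 (Finset.mem_inter.2 ⟨h5, h⟩)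
      have h7 := hYe a haJ (Finset.mem_inter.1 h1.2).2 h6
      exact Finset.disjoint_left.1 hXUg h7 (Finset.mem_inter.1 h1.2).1
    · obtain ⟨b, hb, h1, h2⟩ := hK U hU hne h1U
      exact h2 (hKno b hb h1 fun h => hUZ ⟨_, Finset.mem_inter.2 ⟨h1, h⟩⟩)
  · exact Finset.mem_inter.2 ⟨htg, hKL Y hY g hgK ((hg2 Y hY).2 h2Y)⟩

/-- The exchange lemma. -/
theorem exchange {L : Finset (Finset V)} (hL : Lat L) {t1 t2 : V} {J K : Finset A}
    (hJK : Disjoint J K)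
    (hKL : ∀ U ∈ L, ∀ a ∈ K, head a ∈ U → tail a ∈ U)
    (hJ : Cov tail head L t1 J) (hK : Cov tail head L t1 K)
    {g g' : A} (hgK : g ∈ K) (hg'K : g' ∈ K) (hgg' : g ≠ g')
    (hg2 : ∀ U ∈ L, (head g ∈ U ↔ t2 ∈ U)) (hg'2 : ∀ U ∈ L, (head g' ∈ U ↔ t2 ∈ U)) :
    ∃ J' ⊆ J ∪ K, Cov tail head L t1 J' ∧ Cov tail head L t1 ((J ∪ K) \ J') ∧
      ((g ∈ J' ∧ g' ∉ J') ∨ (g' ∈ J' ∧ g ∉ J')) := by
  classical
  -- moving one arc
  have hmove : ∀ e ∈ K, ∀ e' ∈ K, e ≠ e' → Cov tail head L t1 (K.erase e) →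
      ∃ J' ⊆ J ∪ K, Cov tail head L t1 J' ∧ Cov tail head L t1 ((J ∪ K) \ J') ∧
        (e ∈ J' ∧ e' ∉ J') := by
    intro e he e' he' hne hc
    refine ⟨insert e J, ?_, hJ.mono (Finset.subset_insert _ _), hc.mono ?_,
      Finset.mem_insert_self _ _, ?_⟩
    · exact Finset.insert_subset (Finset.mem_union_right _ he) Finset.subset_union_left
    · intro a ha
      rw [Finset.mem_erase] at ha
      rw [Finset.mem_sdiff, Finset.mem_union, Finset.mem_insert, not_or]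
      exact ⟨Or.inr ha.2, ha.1, fun h => Finset.disjoint_left.1 hJK h ha.2⟩
    · rw [Finset.mem_insert, not_or]
      exact ⟨hne.symm, fun h => Finset.disjoint_left.1 hJK h he'⟩
  by_cases hc : Cov tail head L t1 (K.erase g)
  · obtain ⟨J', h1, h2, h3, h4⟩ := hmove g hgK g' hg'K hgg' hc
    exact ⟨J', h1, h2, h3, Or.inl h4⟩
  by_cases hc' : Cov tail head L t1 (K.erase g')
  · obtain ⟨J', h1, h2, h3, h4⟩ := hmove g' hg'K g hgK hgg'.symm hc'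
    exact ⟨J', h1, h2, h3, Or.inr h4⟩
  -- the largest sets left only by one arc
  have hbig : ∀ e ∈ K, ¬ Cov tail head L t1 (K.erase e) → ∃ M ∈ L, (t1 ∉ M ∧
      ∀ a ∈ K, tail a ∈ M → head a ∉ M → a = e) ∧
      (∀ U ∈ L, t1 ∉ U → (∀ a ∈ K, tail a ∈ U → head a ∉ U → a = e) → U ⊆ M) ∧
      tail e ∈ M ∧ head e ∉ M := by
    intro e he hce
    obtain ⟨M, hM, ⟨h1M, hMe⟩, hMm⟩ := hL.largest
      (fun M => t1 ∉ M ∧ ∀ a ∈ K, tail a ∈ M → head a ∉ M → a = e)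
      ⟨Finset.notMem_empty _, fun a _ h => absurd h (Finset.notMem_empty _)⟩
      (fun U W hU hW => ⟨fun h => (Finset.mem_union.1 h).elim hU.1 hW.1, fun a ha h1 h2 => by
        rw [Finset.mem_union, not_or] at h2
        rcases Finset.mem_union.1 h1 with h3 | h3
        · exact hU.2 a ha h3 h2.1
        · exact hW.2 a ha h3 h2.2⟩)
    have hmax : ∀ U ∈ L, t1 ∉ U → (∀ a ∈ K, tail a ∈ U → head a ∉ U → a = e) → U ⊆ M :=
      fun U hU h1 h2 => hMm U hU ⟨h1, h2⟩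
    refine ⟨M, hM, ⟨h1M, hMe⟩, hmax, ?_⟩
    unfold Cov at hce
    push Not at hce
    obtain ⟨U, hU, hne, h1U, hUe⟩ := hce
    have hUM : U ⊆ M := hmax U hU h1U fun a ha h1 h2 => by
      by_contra h3
      exact h2 (hUe a (Finset.mem_erase.2 ⟨h3, ha⟩) h1)
    obtain ⟨a, haK, h1, h2⟩ := hK M hM (hne.mono hUM) h1M
    have h3 := hMe a haK h1 h2
    rw [h3] at h1 h2
    exact ⟨h1, h2⟩
  obtain ⟨Ug, hUg, ⟨h1Ug, hUge⟩, hUgm, htg, hhg⟩ := hbig g hgK hc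
  obtain ⟨Ug', hUg', ⟨h1Ug', hUge'⟩, hUgm', htg', hhg'⟩ := hbig g' hg'K hc'
  have hdis : Disjoint Ug Ug' := by
    rw [Finset.disjoint_iff_inter_eq_empty]
    by_contra hne
    obtain ⟨a, haK, h1, h2⟩ := hK _ (hL.inter _ hUg _ hUg') (Finset.nonempty_iff_ne_empty.2 hne)
      (fun h => h1Ug (Finset.mem_inter.1 h).1)
    rw [Finset.mem_inter] at h1
    by_cases h3 : head a ∈ Ug
    · have h4 : head a ∉ Ug' := fun h => h2 (Finset.mem_inter.2 ⟨h3, h⟩)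
      have h5 := hUge' a haK h1.2 h4
      rw [h5] at h3
      exact hhg ((hg2 _ hUg).2 ((hg'2 _ hUg).1 h3))
    · have h5 := hUge a haK h1.1 h3
      rw [h5] at h1
      have h6 := hUge' g hgK h1.2 fun h => hhg' ((hg'2 _ hUg').2 ((hg2 _ hUg').1 h))
      exact hgg' h6
  -- the sets `Λ X`
  have hΛ : ∀ X : Finset V, ∃ M ∈ L, (t1 ∉ M ∧ ∀ a ∈ J, tail a ∈ M → head a ∉ M → tail a ∈ X) ∧
      ∀ U ∈ L, (t1 ∉ U ∧ ∀ a ∈ J, tail a ∈ U → head a ∉ U → tail a ∈ X) → U ⊆ M := by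
    intro X
    refine hL.largest (fun M => t1 ∉ M ∧ ∀ a ∈ J, tail a ∈ M → head a ∉ M → tail a ∈ X)
      ⟨Finset.notMem_empty _, fun a _ h => absurd h (Finset.notMem_empty _)⟩
      (fun U W hU hW => ⟨fun h => (Finset.mem_union.1 h).elim hU.1 hW.1, fun a ha h1 h2 => by
        rw [Finset.mem_union, not_or] at h2
        rcases Finset.mem_union.1 h1 with h3 | h3
        · exact hU.2 a ha h3 h2.1
        · exact hW.2 a ha h3 h2.2⟩)
  choose Λ hΛL hΛP hΛm using hΛ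
  have hmono : ∀ X X' : Finset V, X ⊆ X' → Λ X ⊆ Λ X' := fun X X' h =>
    hΛm X' (Λ X) (hΛL X) ⟨(hΛP X).1, fun a ha h1 h2 => h ((hΛP X).2 a ha h1 h2)⟩
  by_contra hno
  -- a successful swap
  have hswap : ∀ e ∈ K, ∀ e' ∈ K, e ≠ e' → (∀ U ∈ L, (head e ∈ U ↔ t2 ∈ U)) →
      ∀ Ue ∈ L, t1 ∉ Ue → (∀ a ∈ K, tail a ∈ Ue → head a ∉ Ue → a = e) →
      (∀ U ∈ L, t1 ∉ U → (∀ a ∈ K, tail a ∈ U → head a ∉ U → a = e) → U ⊆ Ue) →
      tail e ∈ Ue → tail e' ∉ Ue → ∀ X Y : Finset V, Y ∈ L → Disjoint X Ue → t2 ∈ Y →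
      (∀ a ∈ J, tail a ∈ Y → head a ∉ Y → tail a ∈ X) →
      (∀ U ∈ L, t1 ∉ U → (∀ a ∈ J, tail a ∈ U ∪ Y → head a ∉ U ∪ Y → tail a ∈ X) → U ⊆ Y) →
      t2 ∉ Λ (Ue ∩ Y) →
      ∃ J' ⊆ J ∪ K, Cov tail head L t1 J' ∧ Cov tail head L t1 ((J ∪ K) \ J') ∧
        (e ∈ J' ∧ e' ∉ J') := by
    intro e he e' he' _ he2 Ue hUe h1Ue hUee hUem hte hte' X Y hY hXU h2Y hYe hYm h2
    obtain ⟨h3, h4, h5⟩ := swap hL hKL hJ hK he he2 hUe h1Ue hUee hUem hte hY hXU h2Y hYe hYm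
      (M := Λ (Ue ∩ Y)) (fun U hU h1 h2 => hΛm _ U hU ⟨h1, h2⟩) h2
    refine ⟨_, ?_, h3, h4.mono ?_, ?_, ?_⟩
    · exact Finset.union_subset_union (Finset.filter_subset _ _) (Finset.filter_subset _ _)
    · intro a ha
      rw [Finset.mem_union, Finset.mem_filter, Finset.mem_filter] at ha
      rw [Finset.mem_sdiff, Finset.mem_union, Finset.mem_union, Finset.mem_filter,
        Finset.mem_filter]
      rcases ha with ⟨h6, h7⟩ | ⟨h6, h7⟩
      · exact ⟨Or.inr h6, fun h => h.elim (fun h => Finset.disjoint_left.1 hJK h.1 h6)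
          fun h => h7 h.2⟩
      · exact ⟨Or.inl h6, fun h => h.elim (fun h => h.2 h7)
          fun h => Finset.disjoint_left.1 hJK h6 h.1⟩
    · exact Finset.mem_union_right _ (Finset.mem_filter.2 ⟨he, h5⟩)
    · rw [Finset.mem_union, Finset.mem_filter, Finset.mem_filter]
      rintro (h | h)
      · exact Finset.disjoint_left.1 hJK h.1 he'
      · exact hte' (Finset.mem_inter.1 h.2).1
  have htg'Ug : tail g' ∉ Ug := fun h => Finset.disjoint_left.1 hdis h htg'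
  have htgUg' : tail g ∉ Ug' := fun h => Finset.disjoint_left.1 hdis htg h
  have hF : ∀ Y ∈ L, ∀ X : Finset V, t2 ∈ Y →
      (∀ a ∈ J, tail a ∈ Y → head a ∉ Y → tail a ∈ X) →
      (∀ U ∈ L, t1 ∉ U → (∀ a ∈ J, tail a ∈ U ∪ Y → head a ∉ U ∪ Y → tail a ∈ X) → U ⊆ Y) →
      (Disjoint X Ug → t2 ∈ Λ (Ug ∩ Y)) ∧ (Disjoint X Ug' → t2 ∈ Λ (Ug' ∩ Y)) := by
    intro Y hY X h2Y hYe hYm
    refine ⟨fun hX => ?_, fun hX => ?_⟩
    · by_contra h
      obtain ⟨J', h1, h2, h3, h4⟩ := hswap g hgK g' hg'K hgg' hg2 Ug hUg h1Ug hUge hUgm htg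
        htg'Ug X Y hY hX h2Y hYe hYm h
      exact hno ⟨J', h1, h2, h3, Or.inl h4⟩
    · by_contra h
      obtain ⟨J', h1, h2, h3, h4⟩ := hswap g' hg'K g hgK hgg'.symm hg'2 Ug' hUg' h1Ug' hUge'
        hUgm' htg' htgUg' X Y hY hX h2Y hYe hYm h
      exact hno ⟨J', h1, h2, h3, Or.inr h4⟩
  have hF1 := hF Finset.univ hL.univ ∅ (Finset.mem_univ _)
    (fun a _ _ h => absurd (Finset.mem_univ _) h) (fun U _ _ _ => Finset.subset_univ _)
  rw [Finset.inter_univ, Finset.inter_univ] at hF1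
  have hF2 : ∀ X : Finset V, X ∈ L → t1 ∉ X → t2 ∈ Λ X →
      (Disjoint X Ug → t2 ∈ Λ (Ug ∩ Λ X)) ∧ (Disjoint X Ug' → t2 ∈ Λ (Ug' ∩ Λ X)) := by
    intro X hX h1X h2
    refine hF (Λ X) (hΛL X) X h2 (hΛP X).2 fun U hU h1U hUe => ?_
    exact Finset.union_subset_left (hΛm X _ (hL.union _ hU _ (hΛL X))
      ⟨fun h => (Finset.mem_union.1 h).elim h1U (hΛP X).1, hUe⟩)
  -- a minimal pair
  set PP : Finset (Finset V × Finset V) := (L ×ˢ L).filter fun p => p.1 ⊆ Ug' ∧ p.2 ⊆ Ug ∧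
    t2 ∈ Λ p.1 ∧ t2 ∈ Λ p.2 ∧ Ug' ∩ Λ p.2 ⊆ p.1 ∧ Ug ∩ Λ p.1 ⊆ p.2 with hPP
  have hPPne : PP.Nonempty := by
    refine ⟨(Ug', Ug), ?_⟩
    rw [hPP, Finset.mem_filter, Finset.mem_product]
    exact ⟨⟨hUg', hUg⟩, Finset.Subset.refl _, Finset.Subset.refl _,
      hF1.2 (Finset.disjoint_empty_left _), hF1.1 (Finset.disjoint_empty_left _),
      Finset.inter_subset_left, Finset.inter_subset_left⟩
  obtain ⟨⟨X, Z⟩, hXZ, hmin⟩ := Finset.exists_min_image PP (fun p => p.1.card + p.2.card) hPPne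
  rw [hPP, Finset.mem_filter, Finset.mem_product] at hXZ
  obtain ⟨⟨hXL, hZL⟩, hXU, hZU, h2X, h2Z, hZX, hXZ⟩ := hXZ
  simp only at hXL hZL hXU hZU h2X h2Z hZX hXZ
  have h1X : t1 ∉ X := fun h => h1Ug' (hXU h)
  have h1Z : t1 ∉ Z := fun h => h1Ug (hZU h)
  have hdX : Disjoint X Ug := (hdis.mono_right hXU).symm
  have hdZ : Disjoint Z Ug' := hdis.mono_left hZU
  have hX : X ⊆ Λ Z := by
    have h3 := (hF2 Z hZL h1Z h2Z).2 hdZ
    have h4 : (Ug' ∩ Λ Z, Z) ∈ PP := by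
      rw [hPP, Finset.mem_filter, Finset.mem_product]
      exact ⟨⟨hL.inter _ hUg' _ (hΛL Z), hZL⟩, Finset.inter_subset_left, hZU, h3, h2Z,
        Finset.Subset.refl _,
        (Finset.inter_subset_inter_left (hmono _ _ hZX)).trans hXZ⟩
    have h5 := hmin _ h4
    simp only at h5
    have h6 : Ug' ∩ Λ Z = X := Finset.eq_of_subset_of_card_le hZX (by omega)
    rw [← h6]
    exact Finset.inter_subset_right
  have hZ : Z ⊆ Λ X := by
    have h3 := (hF2 X hXL h1X h2X).1 hdX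
    have h4 : (X, Ug ∩ Λ X) ∈ PP := by
      rw [hPP, Finset.mem_filter, Finset.mem_product]
      exact ⟨⟨hXL, hL.inter _ hUg _ (hΛL X)⟩, hXU, Finset.inter_subset_left, h2X, h3,
        (Finset.inter_subset_inter_left (hmono _ _ hXZ)).trans hZX,
        Finset.Subset.refl _⟩
    have h5 := hmin _ h4
    simp only at h5
    have h6 : Ug ∩ Λ X = Z := Finset.eq_of_subset_of_card_le hXZ (by omega)
    rw [← h6]
    exact Finset.inter_subset_right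
  obtain ⟨a, haJ, h1, h2⟩ := hJ _ (hL.union _ (hΛL X) _ (hΛL Z))
    ⟨t2, Finset.mem_union_left _ h2X⟩
    (fun h => (Finset.mem_union.1 h).elim (hΛP X).1 (hΛP Z).1)
  rw [Finset.mem_union, not_or] at h2
  have hXZd : ∀ x, x ∈ X → x ∈ Z → False := fun x h3 h4 =>
    Finset.disjoint_left.1 hdX h3 (hZU h4)
  rcases Finset.mem_union.1 h1 with h3 | h3
  · have h4 := (hΛP X).2 a haJ h3 h2.1
    exact hXZd _ h4 ((hΛP Z).2 a haJ (hX h4) h2.2)
  · have h4 := (hΛP Z).2 a haJ h3 h2.2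
    exact hXZd _ ((hΛP X).2 a haJ (hZ h4) h2.1) h4

end

end Pool.Agent.Dij
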