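import Pool.Agent.Dij.Basic
import Pool.Agent.Dij.Euler

/-!
Disjoint dijoins from nowhere-zero real functions whose total over every dicut has the right sign
up to a small error, and from orientations.
-/

set_option linter.unusedSectionVars false

namespace Pool.Agent.Dij

section

variable {V A : Type*} [Fintype V] [DecidableEq V] [Fintype A] [DecidableEq A]

variable {tail head : A → V}

/-- `p` disjoint dijoins inside of `S` -/
def Packs (tail head : A → V) (S : Finset A) (p : ℕ) : Prop :=
  ∃ J : Fin p → Finset A, (∀ i, J i ⊆ S) ∧ (∀ i j, i ≠ j → Disjoint (J i) (J j)) ∧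
    ∀ i, ∀ U : Finset V, U.Nonempty → U ≠ Finset.univ → (∀ a, head a ∈ U → tail a ∈ U) →
      ∃ a ∈ J i, tail a ∈ U ∧ head a ∉ U

/-- The rooted split. -/
theorem rooted_split (r : V) (B R : Finset A) (p : ℕ) (hBR : Disjoint B R)
    (hB : ∀ U : Finset V, U.Nonempty → r ∉ U → (∀ a, head a ∈ U → tail a ∈ U) →
      p ≤ (out tail head B U).card)
    (hR : ∀ U : Finset V, U ≠ Finset.univ → r ∈ U → (∀ a, head a ∈ U → tail a ∈ U) →
      p ≤ (out tail head R U).card) :
    Packs tail head (B ∪ R) p := by
  obtain ⟨J, hJB, hJd, hJm⟩ := packing (tail := tail) (head := head) r p B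
    (fun U hU => hB U hU.1 hU.2.1 hU.2.2)
  have hcompl : ∀ U : Finset V, out head tail R Uᶜ = out tail head R U := by
    intro U
    ext a
    rw [mem_out, mem_out, Finset.mem_compl, Finset.mem_compl, not_not]
    tauto
  obtain ⟨K, hKR, hKd, hKm⟩ := packing (tail := head) (head := tail) r p R (by
    intro W hW
    have h1 := hR Wᶜ (fun h => by
        rw [Finset.compl_eq_univ_iff] at h
        exact hW.1.ne_empty h) (Finset.mem_compl.2 hW.2.1) (fun a ha => by
        rw [Finset.mem_compl] at ha ⊢
        exact fun h => ha (hW.2.2 a h))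
    rw [← hcompl, compl_compl] at h1
    exact h1)
  refine ⟨fun i => J i ∪ K i, fun i => Finset.union_subset_union (hJB i) (hKR i), ?_, ?_⟩
  · intro i j hij
    rw [Finset.disjoint_union_left, Finset.disjoint_union_right, Finset.disjoint_union_right]
    exact ⟨⟨hJd i j hij, (hBR.mono_left (hJB i)).mono_right (hKR j)⟩,
      (hBR.symm.mono_left (hKR i)).mono_right (hJB j), hKd i j hij⟩
  · intro i U hUne hUu hU
    by_cases hr : r ∈ U
    · have hok : Ok head tail r Uᶜ := by
        refine ⟨?_, ?_, ?_⟩
        · rw [Finset.nonempty_iff_ne_empty]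
          exact fun h => hUu ((Finset.compl_eq_empty_iff U).1 h)
        · rw [Finset.mem_compl, not_not]
          exact hr
        · intro a ha
          rw [Finset.mem_compl] at ha ⊢
          exact fun h => ha (hU a h)
      obtain ⟨a, ha⟩ := (hKm i).1 _ hok
      rw [mem_out, Finset.mem_compl, Finset.mem_compl, not_not] at ha
      exact ⟨a, Finset.mem_union_right _ ha.1, ha.2.2, ha.2.1⟩
    · obtain ⟨a, ha⟩ := (hJm i).1 U ⟨hUne, hr, hU⟩
      rw [mem_out] at ha
      exact ⟨a, Finset.mem_union_left _ ha.1, ha.2⟩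

theorem flow_pack (S : Finset A) (τ : ℕ)
    (hdicut : ∀ U : Finset V, U.Nonempty → U ≠ Finset.univ →
      (∀ a : A, head a ∈ U → tail a ∈ U) → τ ≤ (out tail head S U).card)
    (r : V) (κ q : ℝ) (hκ : 1 ≤ κ) (p : ℕ) (φ : A → ℝ)
    (hφ : ∀ a ∈ S, 1 ≤ |φ a| ∧ |φ a| ≤ κ)
    (hq : ∀ U : Finset V, U.Nonempty → U ≠ Finset.univ →
      (∀ a : A, head a ∈ U → tail a ∈ U) →
        (r ∉ U → - q ≤ ∑ a ∈ out tail head S U, φ a) ∧
        (r ∈ U → ∑ a ∈ out tail head S U, φ a ≤ q))
    (hp : (κ + 1) * p + q < τ + κ + 1) :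
    Packs tail head S p := by
  classical
  set B : Finset A := S.filter fun a => 0 < φ a with hB
  set R : Finset A := S.filter fun a => ¬ 0 < φ a with hR
  have hBR : B ∪ R = S := Finset.filter_union_filter_not_eq _ _
  have hdis : Disjoint B R := Finset.disjoint_filter_filter_not _ _ _
  have hsplit : ∀ U : Finset V, out tail head B U ∪ out tail head R U = out tail head S U := by
    intro U
    unfold out
    rw [← Finset.filter_union, hBR]
  have hdisU : ∀ U : Finset V, Disjoint (out tail head B U) (out tail head R U) := fun U =>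
    hdis.mono (Finset.filter_subset _ _) (Finset.filter_subset _ _)
  have main : ∀ U : Finset V, U.Nonempty → U ≠ Finset.univ →
      (∀ a : A, head a ∈ U → tail a ∈ U) →
        (r ∉ U → p ≤ (out tail head B U).card) ∧ (r ∈ U → p ≤ (out tail head R U).card) := by
    intro U h1 h2 h3
    have h4 := hdicut U h1 h2 h3
    have h5 := hq U h1 h2 h3
    rw [← hsplit U] at h4 h5
    rw [Finset.card_union_of_disjoint (hdisU U)] at h4
    rw [Finset.sum_union (hdisU U)] at h5
    set b := (out tail head B U).card with hb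
    set c := (out tail head R U).card with hc
    have h6 : (b : ℝ) ≤ ∑ a ∈ out tail head B U, φ a := by
      rw [hb, Finset.card_eq_sum_ones]
      push_cast
      refine Finset.sum_le_sum fun a ha => ?_
      rw [mem_out, hB, Finset.mem_filter] at ha
      have h := (hφ a ha.1.1).1
      rwa [abs_of_pos ha.1.2] at h
    have h7 : ∑ a ∈ out tail head B U, φ a ≤ b * κ := by
      rw [hb, ← nsmul_eq_mul, ← Finset.sum_const]
      refine Finset.sum_le_sum fun a ha => ?_
      rw [mem_out, hB, Finset.mem_filter] at ha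
      exact (le_abs_self _).trans (hφ a ha.1.1).2
    have h8 : ∑ a ∈ out tail head R U, φ a ≤ - (c : ℝ) := by
      rw [hc, Finset.card_eq_sum_ones]
      push_cast
      rw [← Finset.sum_neg_distrib]
      refine Finset.sum_le_sum fun a ha => ?_
      rw [mem_out, hR, Finset.mem_filter] at ha
      have h := (hφ a ha.1.1).1
      rw [abs_of_nonpos (not_lt.1 ha.1.2)] at h
      linarith
    have h9 : - (c * κ) ≤ ∑ a ∈ out tail head R U, φ a := by
      rw [hc, ← nsmul_eq_mul, ← smul_neg, ← Finset.sum_const]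
      refine Finset.sum_le_sum fun a ha => ?_
      rw [mem_out, hR, Finset.mem_filter] at ha
      have h := (hφ a ha.1.1).2
      have h' := neg_abs_le (φ a)
      linarith
    have h4' : (τ : ℝ) ≤ b + c := by exact_mod_cast h4
    have hk0 : (0 : ℝ) < κ + 1 := by linarith
    constructor
    · intro hr
      have h11 := h5.1 hr
      have hb' : (κ + 1) * p < (κ + 1) * (b + 1) := by nlinarith
      have h12 : (p : ℝ) < b + 1 := lt_of_mul_lt_mul_left hb' hk0.le
      have h13 : p < b + 1 := by exact_mod_cast h12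
      omega
    · intro hr
      have h11 := h5.2 hr
      have hc' : (κ + 1) * p < (κ + 1) * (c + 1) := by nlinarith
      have h12 : (p : ℝ) < c + 1 := lt_of_mul_lt_mul_left hc' hk0.le
      have h13 : p < c + 1 := by exact_mod_cast h12
      omega
  rw [← hBR]
  refine rooted_split r B R p hdis ?_ ?_
  · intro U h1 h2 h3
    exact (main U h1 (fun h => h2 (h ▸ Finset.mem_univ r)) h3).1 h2
  · intro U h1 h2 h3
    exact (main U ⟨r, h2⟩ h1 h3).2 h2

/-- A signing of a set of arcs with small one-sided defect on closed sets. -/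
theorem orient_phi (S H : Finset A) (hHS : H ⊆ S) (r : V) (l m q : ℕ) (P : Fin l → V × V)
    (hW : ∀ W : Finset V, r ∉ W →
      (W.filter fun v => Odd ((H.filter fun a => tail a = v).card +
        (H.filter fun a => head a = v).card +
        ∑ i, ((if (P i).1 = v then 1 else 0) + (if (P i).2 = v then 1 else 0)))).card ≤
      (H.filter fun a => ¬ (tail a ∈ W ↔ head a ∈ W)).card +
        (Finset.univ.filter fun i => ¬ ((P i).1 ∈ W ↔ (P i).2 ∈ W)).card + 2 * m)
    (hq : ∀ U : Finset V, U.Nonempty → U ≠ Finset.univ →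
      (∀ a : A, head a ∈ U → tail a ∈ U) →
        (Finset.univ.filter fun i => ¬ ((P i).1 ∈ U ↔ (P i).2 ∈ U)).card ≤ q) :
    ∃ φ : A → ℝ, (∀ a ∈ H, φ a = 1 ∨ φ a = -1) ∧ (∀ a, a ∉ H → φ a = 0) ∧
      ∀ U : Finset V, U.Nonempty → U ≠ Finset.univ → (∀ a : A, head a ∈ U → tail a ∈ U) →
        (r ∉ U → - ((q : ℝ) + m) ≤ ∑ a ∈ out tail head S U, φ a) ∧
        (r ∈ U → ∑ a ∈ out tail head S U, φ a ≤ (q : ℝ) + m) := by
  classical
  set t : H ⊕ Fin l → V := Sum.elim (fun a => tail a) (fun i => (P i).1) with ht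
  set h : H ⊕ Fin l → V := Sum.elim (fun a => head a) (fun i => (P i).2) with hh
  have hdeg : ∀ v, (Finset.univ.filter fun e => t e = v).card +
        (Finset.univ.filter fun e => h e = v).card =
        (H.filter fun a => tail a = v).card + (H.filter fun a => head a = v).card +
        ∑ i, ((if (P i).1 = v then 1 else 0) + (if (P i).2 = v then 1 else 0)) := by
    intro v
    rw [Finset.card_filter, Finset.card_filter, Finset.card_filter, Finset.card_filter,
      Fintype.sum_sum_type, Fintype.sum_sum_type, Finset.sum_add_distrib,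
      ← Finset.sum_coe_sort H (fun a => if tail a = v then 1 else 0),
      ← Finset.sum_coe_sort H (fun a => if head a = v then 1 else 0)]
    simp only [ht, hh, Sum.elim_inl, Sum.elim_inr]
    ring
  have hcut : ∀ W : Finset V, (Finset.univ.filter fun e => ¬ (t e ∈ W ↔ h e ∈ W)).card =
      (H.filter fun a => ¬ (tail a ∈ W ↔ head a ∈ W)).card +
        (Finset.univ.filter fun i => ¬ ((P i).1 ∈ W ↔ (P i).2 ∈ W)).card := by
    intro W
    rw [Finset.card_filter, Finset.card_filter, Finset.card_filter, Fintype.sum_sum_type,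
      ← Finset.sum_coe_sort H (fun a => if ¬ (tail a ∈ W ↔ head a ∈ W) then 1 else 0)]
    simp only [ht, hh, Sum.elim_inl, Sum.elim_inr]
  obtain ⟨o, ho⟩ := orient t h r m (by
    intro W hr
    rw [hcut]
    refine le_trans (le_of_eq ?_) (hW W hr)
    congr 1
    ext v
    rw [Finset.mem_filter, Finset.mem_filter, hdeg v])
  set ψ : A → ℤ := fun a => if ha : a ∈ H then sg (o (Sum.inl ⟨a, ha⟩)) else 0 with hψ
  have hnetsum : ∑ v, net t h o v = 0 := by
    rw [sum_net]
    simp
  have hlow : ∀ W : Finset V, r ∉ W → - (m : ℤ) ≤ ∑ v ∈ W, net t h o v := by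
    intro W hr
    have h1 : ∑ v ∈ W, np (net t h o v) ≤ ∑ v ∈ Finset.univ.erase r, np (net t h o v) :=
      Finset.sum_le_sum_of_subset_of_nonneg
        (fun v hv => Finset.mem_erase.2 ⟨fun h => hr (h ▸ hv), Finset.mem_univ _⟩)
        (fun v _ _ => le_max_right _ _)
    have h2 : - ∑ v ∈ W, net t h o v ≤ ∑ v ∈ W, np (net t h o v) := by
      rw [← Finset.sum_neg_distrib]
      exact Finset.sum_le_sum fun v _ => le_max_left _ _
    linarith
  refine ⟨fun a => (ψ a : ℝ), ?_, ?_, ?_⟩
  · intro a ha
    simp only [hψ, dif_pos ha]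
    cases o (Sum.inl ⟨a, ha⟩) <;> simp [sg]
  · intro a ha
    simp only [hψ, dif_neg ha]
    simp
  · intro U h1 h2 h3
    have h4 := sum_net t h o U
    rw [Fintype.sum_sum_type] at h4
    have h5 : ∑ a : H, sg (o (Sum.inl a)) * ((if t (Sum.inl a) ∈ U then 1 else 0) -
        (if h (Sum.inl a) ∈ U then 1 else 0)) = ∑ a ∈ out tail head S U, ψ a := by
      have h6 : ∑ a ∈ out tail head S U, ψ a = ∑ a ∈ out tail head H U, ψ a := by
        symm
        refine Finset.sum_subset (fun a ha => ?_) (fun a ha haH => ?_)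
        · rw [mem_out] at ha ⊢
          exact ⟨hHS ha.1, ha.2⟩
        · have : a ∉ H := by
            intro h7
            rw [mem_out] at ha haH
            exact haH ⟨h7, ha.2⟩
          simp only [hψ, dif_neg this]
      rw [h6]
      unfold out
      rw [Finset.sum_filter, ← Finset.sum_coe_sort H]
      refine Finset.sum_congr rfl fun a _ => ?_
      simp only [ht, hh, Sum.elim_inl, hψ, dif_pos a.2]
      by_cases h6 : head a.1 ∈ U
      · have := h3 _ h6
        simp [h6, this]
      · by_cases h7 : tail a.1 ∈ U <;> simp [h6, h7]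
    rw [h5] at h4
    have h6 : |∑ i : Fin l, sg (o (Sum.inr i)) * ((if t (Sum.inr i) ∈ U then 1 else 0) -
        (if h (Sum.inr i) ∈ U then 1 else 0))| ≤ q := by
      refine (Finset.abs_sum_le_sum_abs _ _).trans ?_
      have h7 : ∑ i : Fin l, |sg (o (Sum.inr i)) * ((if t (Sum.inr i) ∈ U then 1 else 0) -
        (if h (Sum.inr i) ∈ U then 1 else 0))| ≤
          ∑ i : Fin l, if ¬ ((P i).1 ∈ U ↔ (P i).2 ∈ U) then 1 else 0 := by
        refine Finset.sum_le_sum fun i _ => ?_
        simp only [ht, hh, Sum.elim_inr]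
        by_cases h8 : (P i).1 ∈ U <;> by_cases h9 : (P i).2 ∈ U <;> cases o (Sum.inr i) <;>
          simp [h8, h9, sg]
      refine h7.trans ?_
      have h8 := hq U h1 h2 h3
      rw [Finset.card_filter] at h8
      exact_mod_cast h8
    rw [abs_le] at h6
    constructor
    · intro hr
      have h7 := hlow U hr
      have h8 : -((q : ℤ) + m) ≤ ∑ a ∈ out tail head S U, ψ a := by linarith [h6.1, h6.2]
      beta_reduce
      exact_mod_cast h8
    · intro hr
      have h7 := hlow Uᶜ (by rw [Finset.mem_compl, not_not]; exact hr)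
      have h8 := Finset.sum_add_sum_compl U (fun v => net t h o v)
      rw [hnetsum] at h8
      have h9 : ∑ a ∈ out tail head S U, ψ a ≤ (q : ℤ) + m := by linarith [h6.1, h6.2]
      beta_reduce
      exact_mod_cast h9

theorem orient_pack (S : Finset A) (τ : ℕ)
    (hdicut : ∀ U : Finset V, U.Nonempty → U ≠ Finset.univ →
      (∀ a : A, head a ∈ U → tail a ∈ U) → τ ≤ (out tail head S U).card)
    (r : V) (l m q p : ℕ) (P : Fin l → V × V)
    (hW : ∀ W : Finset V, r ∉ W →
      (W.filter fun v => Odd ((S.filter fun a => tail a = v).card +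
        (S.filter fun a => head a = v).card +
        ∑ i, ((if (P i).1 = v then 1 else 0) + (if (P i).2 = v then 1 else 0)))).card ≤
      (S.filter fun a => ¬ (tail a ∈ W ↔ head a ∈ W)).card +
        (Finset.univ.filter fun i => ¬ ((P i).1 ∈ W ↔ (P i).2 ∈ W)).card + 2 * m)
    (hq : ∀ U : Finset V, U.Nonempty → U ≠ Finset.univ →
      (∀ a : A, head a ∈ U → tail a ∈ U) →
        (Finset.univ.filter fun i => ¬ ((P i).1 ∈ U ↔ (P i).2 ∈ U)).card ≤ q)
    (hp : 2 * p + q + m ≤ τ + 1) :
    Packs tail head S p := by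
  obtain ⟨φ, h1, _, h3⟩ := orient_phi S S (Finset.Subset.refl S) r l m q P hW hq
  refine flow_pack S τ hdicut r 1 (q + m) le_rfl p φ (fun a ha => ?_) h3 ?_
  · rcases h1 a ha with h | h <;> rw [h] <;> simp
  · have : (2 * p + q + m : ℝ) ≤ τ + 1 := by exact_mod_cast hp
    linarith

/-- parity of the degree of `v` in the set `X` of arcs -/
def dg (tail head : A → V) (X : Finset A) (v : V) : ℕ :=
  (X.filter fun a => tail a = v).card + (X.filter fun a => head a = v).card

theorem dg_symmDiff (X Y : Finset A) (v : V) :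
    (dg tail head (symmDiff X Y) v) % 2 = (dg tail head X v + dg tail head Y v) % 2 := by
  have key : ∀ f : A → V, ∃ k, ((symmDiff X Y).filter fun a => f a = v).card + 2 * k =
      (X.filter fun a => f a = v).card + (Y.filter fun a => f a = v).card := by
    intro f
    refine ⟨((X ∩ Y).filter fun a => f a = v).card, ?_⟩
    simp only [Finset.card_filter]
    have h1 : ∀ Z : Finset A, ∑ a ∈ Z, (if f a = v then 1 else 0) =
        ∑ a : A, if a ∈ Z then (if f a = v then 1 else 0) else 0 := by
      intro Z
      rw [Finset.sum_ite_mem, Finset.univ_inter]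
    rw [h1, h1, h1, h1, Finset.mul_sum, ← Finset.sum_add_distrib, ← Finset.sum_add_distrib]
    refine Finset.sum_congr rfl fun a _ => ?_
    by_cases hX : a ∈ X <;> by_cases hY : a ∈ Y <;> by_cases hf : f a = v <;>
      simp [Finset.mem_symmDiff, hX, hY, hf]
  obtain ⟨k1, hk1⟩ := key tail
  obtain ⟨k2, hk2⟩ := key head
  unfold dg
  omega

/-- In a connected graph there is a set of edges with prescribed parities of degrees for a pair. -/
theorem pair_join (H : Finset A) (x y : V)
    (hxy : Relation.ReflTransGen (fun u v => ∃ a ∈ H, (tail a = u ∧ head a = v) ∨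
      (tail a = v ∧ head a = u)) x y) :
    ∃ J ⊆ H, ∀ v, (dg tail head J v) % 2 =
      ((if x = v then 1 else 0) + (if y = v then 1 else 0)) % 2 := by
  induction hxy with
  | refl =>
    refine ⟨∅, Finset.empty_subset _, fun v => ?_⟩
    by_cases h : x = v <;> simp [dg, h]
  | @tail b c _ hab ih =>
    obtain ⟨J, hJ, hJv⟩ := ih
    obtain ⟨a, ha, hac⟩ := hab
    refine ⟨symmDiff J {a}, ?_, fun v => ?_⟩
    · intro e he
      rw [Finset.mem_symmDiff, Finset.mem_singleton] at he
      rcases he with h | h
      · exact hJ h.1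
      · rw [h.1]
        exact ha
    · rw [dg_symmDiff, Nat.add_mod, hJv v]
      have h1 : dg tail head {a} v = (if tail a = v then 1 else 0) +
          (if head a = v then 1 else 0) := by
        unfold dg
        rw [Finset.filter_singleton, Finset.filter_singleton]
        by_cases h2 : tail a = v <;> by_cases h3 : head a = v <;> simp [h2, h3]
      rw [h1]
      rcases hac with ⟨h2, h3⟩ | ⟨h2, h3⟩ <;> rw [h2, h3] <;> by_cases h4 : x = v <;>
        by_cases h5 : b = v <;> by_cases h6 : c = v <;> simp [h4, h5, h6]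

theorem set_join (H : Finset A)
    (hc : ∀ x y, Relation.ReflTransGen (fun u v => ∃ a ∈ H, (tail a = u ∧ head a = v) ∨
      (tail a = v ∧ head a = u)) x y) (m : ℕ) : ∀ T : Finset V, T.card = 2 * m →
    ∃ J ⊆ H, ∀ v, (dg tail head J v) % 2 = (if v ∈ T then 1 else 0) := by
  induction m with
  | zero =>
    intro T hT
    have : T = ∅ := Finset.card_eq_zero.1 (by omega)
    subst this
    exact ⟨∅, Finset.empty_subset _, fun v => by simp [dg]⟩
  | succ m ih =>
    intro T hT
    obtain ⟨x, hx⟩ : T.Nonempty := Finset.card_pos.1 (by omega)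
    obtain ⟨y, hy⟩ : (T.erase x).Nonempty := Finset.card_pos.1 (by
      rw [Finset.card_erase_of_mem hx]; omega)
    obtain ⟨J, hJ, hJv⟩ := ih ((T.erase x).erase y) (by
      rw [Finset.card_erase_of_mem hy, Finset.card_erase_of_mem hx]; omega)
    obtain ⟨K, hK, hKv⟩ := pair_join H x y (hc x y)
    have hxy : y ≠ x := (Finset.mem_erase.1 hy).1
    have hyT : y ∈ T := (Finset.mem_erase.1 hy).2
    refine ⟨symmDiff J K, ?_, fun v => ?_⟩
    · intro e he
      rw [Finset.mem_symmDiff] at he
      rcases he with h | h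
      · exact hJ h.1
      · exact hK h.1
    · rw [dg_symmDiff, Nat.add_mod, hJv v, hKv v]
      by_cases h1 : v = x
      · subst h1
        simp [hx, hxy]
      · by_cases h2 : v = y
        · subst h2
          have h3 : ¬ x = v := fun h => h1 h.symm
          simp [hyT, h3]
        · have h3 : ¬ x = v := fun h => h1 h.symm
          have h4 : ¬ y = v := fun h => h2 h.symm
          by_cases h5 : v ∈ T <;> simp [h1, h2, h3, h4, h5]

theorem sum_dg (X : Finset A) : ∑ v, dg tail head X v = 2 * X.card := by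
  unfold dg
  rw [Finset.sum_add_distrib,
    ← Finset.card_eq_sum_card_fiberwise (fun a _ => Finset.mem_univ _),
    ← Finset.card_eq_sum_card_fiberwise (fun a _ => Finset.mem_univ _)]
  ring

/-- Some set of arcs with even degrees contains all arcs outside of a connected set `H`. -/
theorem even_cover (S H : Finset A) (hHS : H ⊆ S)
    (hc : ∀ x y, Relation.ReflTransGen (fun u v => ∃ a ∈ H, (tail a = u ∧ head a = v) ∨
      (tail a = v ∧ head a = u)) x y) :
    ∃ C ⊆ S, (∀ a ∈ S, a ∉ H → a ∈ C) ∧ ∀ v, Even (dg tail head C v) := by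
  classical
  set T : Finset V := Finset.univ.filter fun v => Odd (dg tail head (S \ H) v) with hT
  have hTe : Even T.card := by
    have h1 : Even (∑ v, dg tail head (S \ H) v) := by
      rw [sum_dg]
      exact even_two_mul _
    rw [hT]
    exact (Finset.even_sum_iff_even_card_odd _).1 h1
  obtain ⟨m, hm⟩ := hTe
  obtain ⟨J, hJ, hJv⟩ := set_join H hc m T (by omega)
  refine ⟨symmDiff (S \ H) J, ?_, ?_, ?_⟩
  · intro e he
    rw [Finset.mem_symmDiff] at he
    rcases he with h | h
    · exact (Finset.mem_sdiff.1 h.1).1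
    · exact hHS (hJ h.1)
  · intro a haS haH
    rw [Finset.mem_symmDiff]
    exact Or.inl ⟨Finset.mem_sdiff.2 ⟨haS, haH⟩, fun h => haH (hJ h)⟩
  · intro v
    rw [Nat.even_iff, dg_symmDiff, Nat.add_mod, hJv v]
    by_cases hv : v ∈ T
    · have h1 : Odd (dg tail head (S \ H) v) := by
        rw [hT, Finset.mem_filter] at hv
        exact hv.2
      rw [Nat.odd_iff] at h1
      simp [hv, h1]
    · have h1 : ¬ Odd (dg tail head (S \ H) v) := by
        intro h
        apply hv
        rw [hT, Finset.mem_filter]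
        exact ⟨Finset.mem_univ _, h⟩
      rw [Nat.not_odd_iff_even, Nat.even_iff] at h1
      simp [hv, h1]

theorem connected_pack (S : Finset A) (τ : ℕ)
    (hdicut : ∀ U : Finset V, U.Nonempty → U ≠ Finset.univ →
      (∀ a : A, head a ∈ U → tail a ∈ U) → τ ≤ (out tail head S U).card)
    (r : V) (H : Finset A) (hHS : H ⊆ S)
    (hc : ∀ x y, Relation.ReflTransGen (fun u v => ∃ a ∈ H, (tail a = u ∧ head a = v) ∨
      (tail a = v ∧ head a = u)) x y)
    (l m q p : ℕ) (P : Fin l → V × V)
    (hW : ∀ W : Finset V, r ∉ W →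
      (W.filter fun v => Odd ((H.filter fun a => tail a = v).card +
        (H.filter fun a => head a = v).card +
        ∑ i, ((if (P i).1 = v then 1 else 0) + (if (P i).2 = v then 1 else 0)))).card ≤
      (H.filter fun a => ¬ (tail a ∈ W ↔ head a ∈ W)).card +
        (Finset.univ.filter fun i => ¬ ((P i).1 ∈ W ↔ (P i).2 ∈ W)).card + 2 * m)
    (hq : ∀ U : Finset V, U.Nonempty → U ≠ Finset.univ →
      (∀ a : A, head a ∈ U → tail a ∈ U) →
        (Finset.univ.filter fun i => ¬ ((P i).1 ∈ U ↔ (P i).2 ∈ U)).card ≤ q)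
    (hp : 4 * p + q + m ≤ τ + 3) :
    Packs tail head S p := by
  classical
  obtain ⟨φ, h1, h2, h3⟩ := orient_phi S H hHS r l m q P hW hq
  obtain ⟨C, hCS, hC1, hC2⟩ := even_cover S H hHS hc
  obtain ⟨ψ, g1, g2, g3⟩ := orient_phi S C hCS r 0 0 0 (fun i => i.elim0) (by
    intro W _
    have : (W.filter fun v => Odd ((C.filter fun a => tail a = v).card +
        (C.filter fun a => head a = v).card + ∑ i : Fin 0,
          ((if ((fun i : Fin 0 => (i.elim0 : V × V)) i).1 = v then 1 else 0) +
            (if ((fun i : Fin 0 => (i.elim0 : V × V)) i).2 = v then 1 else 0)))) = ∅ := by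
      rw [Finset.filter_eq_empty_iff]
      intro v _
      have h4 := hC2 v
      unfold dg at h4
      simpa using h4
    rw [this]
    simp) (fun U _ _ _ => by simp)
  refine flow_pack S τ hdicut r 3 (q + m) (by norm_num) p (fun a => 2 * ψ a + φ a)
    (fun a ha => ?_) (fun U hU1 hU2 hU3 => ?_) ?_
  · by_cases haH : a ∈ H
    · by_cases haC : a ∈ C
      · rcases h1 a haH with h | h <;> rcases g1 a haC with g | g <;> rw [h, g] <;> norm_num
      · rw [g2 a haC]
        rcases h1 a haH with h | h <;> rw [h] <;> norm_num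
    · have haC : a ∈ C := hC1 a ha haH
      rw [h2 a haH]
      rcases g1 a haC with g | g <;> rw [g] <;> norm_num
  · have h4 := h3 U hU1 hU2 hU3
    have h5 := g3 U hU1 hU2 hU3
    rw [Finset.sum_add_distrib, ← Finset.mul_sum]
    constructor
    · intro hr
      have := h4.1 hr
      have := h5.1 hr
      push_cast at *
      linarith
    · intro hr
      have := h4.2 hr
      have := h5.2 hr
      push_cast at *
      linarith
  · have : (4 * p + q + m : ℝ) ≤ τ + 3 := by exact_mod_cast hp
    linarith

end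

end Pool.Agent.Dij
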