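import Pool.Agent.Dij.Two

/-!
The induction for lattices with two sinks all of whose nonempty members meet the members
containing the first sink.
-/

set_option linter.unusedSectionVars false

namespace Pool.Agent.Dij

section

variable {V A : Type*} [Fintype V] [DecidableEq V] [Fintype A] [DecidableEq A]

theorem univ_cup (X : Finset V) : Finset.univ ∪ X = Finset.univ :=
  Finset.eq_univ_iff_forall.2 fun x => Finset.mem_union_left _ (Finset.mem_univ x)

theorem cup_univ (X : Finset V) : X ∪ Finset.univ = Finset.univ :=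
  Finset.eq_univ_iff_forall.2 fun x => Finset.mem_union_right _ (Finset.mem_univ x)

theorem two_sinks (t1 t2 : V) (k : ℕ) : ∀ n : ℕ, ∀ (L : Finset (Finset V)) (S : Finset A)
    (tail head : A → V), L.card + S.card = n → Lat L →
    (∀ U ∈ L, ∀ a ∈ S, head a ∈ U → tail a ∈ U) →
    (∀ U ∈ L, U.Nonempty → U ≠ Finset.univ → k + 1 ≤ (out tail head S U).card) →
    (∀ U ∈ L, t1 ∈ U → t2 ∈ U → U = Finset.univ) →
    (∀ U ∈ L, U.Nonempty → ∀ W ∈ L, t1 ∈ W → (U ∩ W).Nonempty) →
    ∃ f : A → Fin (k + 1), Sol tail head S L f := by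
  classical
  intro n
  induction n using Nat.strong_induction_on with
  | _ n ih =>
  intro L S tail head hn hL hSL hcut htwo hmeet
  -- the two single root packings
  obtain ⟨f1, hf1⟩ := lpacking (tail := tail) (head := head) hL t1 k S
    (fun U hU hne h1 => hcut U hU hne fun h => h1 (h ▸ Finset.mem_univ t1))
  obtain ⟨f2, hf2⟩ := lpacking (tail := tail) (head := head) hL t2 k S
    (fun U hU hne h1 => hcut U hU hne fun h => h1 (h ▸ Finset.mem_univ t2))
  have hc1 : ∀ i, ∀ U ∈ L, U.Nonempty → t1 ∉ U → ∃ a ∈ S, f1 a = i ∧ tail a ∈ U ∧ head a ∉ U := by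
    intro i U hU hne h1
    obtain ⟨a, ha, h2⟩ := hf1 i U hU hne h1
    rw [Finset.mem_filter] at ha
    exact ⟨a, ha.1, ha.2, h2⟩
  have hc2 : ∀ i, ∀ U ∈ L, U.Nonempty → t2 ∉ U → ∃ a ∈ S, f2 a = i ∧ tail a ∈ U ∧ head a ∉ U := by
    intro i U hU hne h1
    obtain ⟨a, ha, h2⟩ := hf2 i U hU hne h1
    rw [Finset.mem_filter] at ha
    exact ⟨a, ha.1, ha.2, h2⟩
  -- contraction of a tight set without `t1` and `t2`
  by_cases hA : ∃ Z ∈ L, t1 ∉ Z ∧ t2 ∉ Z ∧ Z.Nonempty ∧ (out tail head S Z).card = k + 1 ∧
      ∃ U ∈ L, U ∩ Z ≠ ∅ ∧ ¬ Z ⊆ U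
  · obtain ⟨Z, hZ, h1Z, h2Z, hZne, htight, U, hU, hUZ, hZU⟩ := hA
    have hZu : Z ≠ Finset.univ := fun h => h1Z (h ▸ Finset.mem_univ t1)
    have hsub : L.filter (fun U => Z ⊆ U ∨ U ∩ Z = ∅) ⊆ L := Finset.filter_subset _ _
    have hlt : (L.filter fun U => Z ⊆ U ∨ U ∩ Z = ∅).card < L.card :=
      Finset.card_lt_card ⟨hsub, fun h => by
        have := (Finset.mem_filter.1 (h hU)).2
        exact this.elim hZU hUZ⟩
    obtain ⟨f, hf⟩ := ih ((L.filter fun U => Z ⊆ U ∨ U ∩ Z = ∅).card + S.card) (by omega)
      (L.filter fun U => Z ⊆ U ∨ U ∩ Z = ∅) S tail head rfl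
      ⟨Finset.mem_filter.2 ⟨hL.empty, Or.inr (Finset.empty_inter _)⟩,
        Finset.mem_filter.2 ⟨hL.univ, Or.inl (Finset.subset_univ _)⟩,
        (fun U hU W hW => by
          rw [Finset.mem_filter] at hU hW ⊢
          refine ⟨hL.inter _ hU.1 _ hW.1, ?_⟩
          rcases hU.2 with h1 | h1
          · rcases hW.2 with h2 | h2
            · exact Or.inl (Finset.subset_inter h1 h2)
            · right
              rw [Finset.inter_assoc, h2, Finset.inter_empty]
          · right
            rw [Finset.inter_right_comm, h1, Finset.empty_inter]),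
        (fun U hU W hW => by
          rw [Finset.mem_filter] at hU hW ⊢
          refine ⟨hL.union _ hU.1 _ hW.1, ?_⟩
          rcases hU.2 with h1 | h1
          · exact Or.inl (h1.trans Finset.subset_union_left)
          · rcases hW.2 with h2 | h2
            · exact Or.inl (h2.trans Finset.subset_union_right)
            · right
              rw [Finset.union_inter_distrib_right, h1, h2, Finset.empty_union])⟩
      (fun U hU => hSL U (hsub hU)) (fun U hU => hcut U (hsub hU)) (fun U hU => htwo U (hsub hU))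
      (fun U hU hne W hW => hmeet U (hsub hU) hne W (hsub hW))
    refine contract hL hSL hZ hZne hZu htight (f1 := f) (f2 := f1) ?_ ?_
    · intro i U hU h1 hne hu
      exact hf i U (Finset.mem_filter.2 ⟨hU, h1⟩) hne hu
    · intro i U hU h1 hne hu
      refine hc1 i U hU hne fun h => ?_
      rcases h1 with h1 | h1
      · exact h1Z (h1 h)
      · have h2 : t2 ∈ U ∪ Z := h1 ▸ Finset.mem_univ _
        exact hu (htwo U hU h ((Finset.mem_union.1 h2).resolve_right h2Z))
  -- contraction of the complement of a tight set with `t1` and without `t2`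
  by_cases hB : ∃ Z ∈ L, t1 ∈ Z ∧ t2 ∉ Z ∧ (out tail head S Z).card = k + 1 ∧
      ∃ U ∈ L, ¬ U ⊆ Z ∧ U ∪ Z ≠ Finset.univ
  · obtain ⟨Z, hZ, h1Z, h2Z, htight, U, hU, hUZ, hZU⟩ := hB
    have hZu : Z ≠ Finset.univ := fun h => h2Z (h ▸ Finset.mem_univ t2)
    have hsub : L.filter (fun U => U ⊆ Z ∨ U ∪ Z = Finset.univ) ⊆ L := Finset.filter_subset _ _
    have hlt : (L.filter fun U => U ⊆ Z ∨ U ∪ Z = Finset.univ).card < L.card :=
      Finset.card_lt_card ⟨hsub, fun h => by
        have := (Finset.mem_filter.1 (h hU)).2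
        exact this.elim hUZ hZU⟩
    obtain ⟨f, hf⟩ := ih ((L.filter fun U => U ⊆ Z ∨ U ∪ Z = Finset.univ).card + S.card)
      (by omega) (L.filter fun U => U ⊆ Z ∨ U ∪ Z = Finset.univ) S tail head rfl
      ⟨Finset.mem_filter.2 ⟨hL.empty, Or.inl (Finset.empty_subset _)⟩,
        Finset.mem_filter.2 ⟨hL.univ, Or.inr (by
          rw [univ_cup])⟩,
        (fun U hU W hW => by
          rw [Finset.mem_filter] at hU hW ⊢
          refine ⟨hL.inter _ hU.1 _ hW.1, ?_⟩
          rcases hU.2 with h1 | h1
          · exact Or.inl (Finset.inter_subset_left.trans h1)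
          · rcases hW.2 with h2 | h2
            · exact Or.inl (Finset.inter_subset_right.trans h2)
            · right
              rw [Finset.inter_union_distrib_right, h1, h2, Finset.univ_inter]),
        (fun U hU W hW => by
          rw [Finset.mem_filter] at hU hW ⊢
          refine ⟨hL.union _ hU.1 _ hW.1, ?_⟩
          rcases hU.2 with h1 | h1
          · rcases hW.2 with h2 | h2
            · exact Or.inl (Finset.union_subset h1 h2)
            · right
              rw [Finset.union_assoc, h2, cup_univ]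
          · right
            rw [Finset.union_right_comm, h1, univ_cup])⟩
      (fun U hU => hSL U (hsub hU)) (fun U hU => hcut U (hsub hU)) (fun U hU => htwo U (hsub hU))
      (fun U hU hne W hW => hmeet U (hsub hU) hne W (hsub hW))
    refine contract hL hSL hZ ⟨t1, h1Z⟩ hZu htight (f1 := f2) (f2 := f) ?_ ?_
    · intro i U hU h1 hne hu
      refine hc2 i U hU hne fun h => ?_
      rcases h1 with h1 | h1
      · exact hu (htwo U hU (h1 h1Z) h)
      · have h3 := hmeet U hU hne Z hZ h1Z
        rw [h1] at h3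
        exact Finset.not_nonempty_empty h3
    · intro i U hU h1 hne hu
      exact hf i U (Finset.mem_filter.2 ⟨hU, h1⟩) hne hu
  -- all tails are in the smallest member containing `t1`
  by_cases hT : ∀ a ∈ S, ∀ U ∈ L, t1 ∈ U → tail a ∈ U
  · exact tails_rooted hL hSL hcut htwo hT
  push Not at hA hB hT
  obtain ⟨b, hbS, W, hW, h1W, hbW⟩ := hT
  have hWu : W ≠ Finset.univ := fun h => hbW (h ▸ Finset.mem_univ _)
  have h2W : t2 ∉ W := fun h => hWu (htwo W hW h1W h)
  have hhbW : head b ∉ W := fun h => hbW (hSL W hW b hbS h)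
  -- deletion
  by_cases hD : ∀ U ∈ L, tail b ∈ U → head b ∉ U → k + 2 ≤ (out tail head S U).card
  · obtain ⟨f, hf⟩ := ih (L.card + (S.erase b).card) (by
      rw [Finset.card_erase_of_mem hbS]
      have := Finset.card_pos.2 ⟨b, hbS⟩
      omega) L (S.erase b) tail head rfl hL
      (fun U hU a ha => hSL U hU a (Finset.mem_of_mem_erase ha))
      (by
        intro U hU hne hu
        have h1 : (out tail head S U).erase b ⊆ out tail head (S.erase b) U := by
          intro a ha
          rw [Finset.mem_erase, mem_out] at ha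
          rw [mem_out, Finset.mem_erase]
          exact ⟨⟨ha.1, ha.2.1⟩, ha.2.2⟩
        refine le_trans ?_ (Finset.card_le_card h1)
        by_cases h2 : b ∈ out tail head S U
        · rw [Finset.card_erase_of_mem h2]
          rw [mem_out] at h2
          have := hD U hU h2.2.1 h2.2.2
          omega
        · rw [Finset.erase_eq_of_notMem h2]
          exact hcut U hU hne hu) htwo hmeet
    refine ⟨f, fun i U hU hne hu => ?_⟩
    obtain ⟨a, ha, h1⟩ := hf i U hU hne hu
    exact ⟨a, Finset.mem_of_mem_erase ha, h1⟩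
  push Not at hD
  obtain ⟨Z, hZ, hbZ, hhbZ, hZk⟩ := hD
  -- tight sets left by `b`
  have htb : ∀ U ∈ L, tail b ∈ U → head b ∉ U → (out tail head S U).card < k + 2 →
      (out tail head S U).card = k + 1 ∧ t1 ∈ U ∧ t2 ∉ U := by
    intro U hU h1 h2 h3
    have h4 : U ≠ Finset.univ := fun h => h2 (h ▸ Finset.mem_univ _)
    have h5 : (out tail head S U).card = k + 1 := by
      have := hcut U hU ⟨_, h1⟩ h4
      omega
    have h6 : t1 ∈ U := by
      by_contra h6
      by_cases h7 : t2 ∈ U
      · have h8 := htwo (U ∪ W) (hL.union _ hU _ hW) (Finset.mem_union_right _ h1W)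
          (Finset.mem_union_left _ h7)
        have h9 : head b ∈ U ∪ W := h8 ▸ Finset.mem_univ _
        exact (Finset.mem_union.1 h9).elim h2 hhbW
      · have h8 := hA U hU h6 h7 ⟨_, h1⟩ h5 W hW (by
          rw [Finset.inter_comm]
          exact hmeet U hU ⟨_, h1⟩ W hW h1W)
        exact hbW (h8 h1)
    exact ⟨h5, h6, fun h => h4 (htwo U hU h6 h)⟩
  obtain ⟨hZt, h1Z, h2Z⟩ := htb Z hZ hbZ hhbZ hZk
  have hblock : ∀ U ∈ L, head b ∉ U → U ⊆ Z := by
    intro U hU h
    by_contra h3
    have h4 := hB Z hZ h1Z h2Z hZt U hU h3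
    have h5 : head b ∈ U ∪ Z := h4 ▸ Finset.mem_univ _
    exact (Finset.mem_union.1 h5).elim h hhbZ
  have htight_sup : ∀ U ∈ L, tail b ∈ U → head b ∉ U → (out tail head S U).card < k + 2 →
      Z ⊆ U := by
    intro U hU h1 h2 h3
    obtain ⟨h4, h5, h6⟩ := htb U hU h1 h2 h3
    by_contra h7
    have h8 := hB U hU h5 h6 h4 Z hZ h7
    have h9 : head b ∈ Z ∪ U := h8 ▸ Finset.mem_univ _
    exact (Finset.mem_union.1 h9).elim hhbZ h2
  -- the largest member avoiding the tail of `b`
  obtain ⟨M, hM, hbM, hMm⟩ := hL.largest (fun U => tail b ∉ U) (Finset.notMem_empty _)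
    (fun U U' h1 h2 h' => (Finset.mem_union.1 h').elim h1 h2)
  have hWM : W ⊆ M := hMm W hW hbW
  have h1M : t1 ∈ M := hWM h1W
  have hMu : M ≠ Finset.univ := fun h => hbM (h ▸ Finset.mem_univ _)
  have hhbM : head b ∉ M := fun h => hbM (hSL M hM b hbS h)
  have hMZ : M ⊆ Z := hblock M hM hhbM
  have h2M : t2 ∉ M := fun h => h2Z (hMZ h)
  have hMc : k + 2 ≤ (out tail head S M).card := by
    by_contra h
    have h3 : (out tail head S M).card = k + 1 := by
      have := hcut M hM ⟨_, h1M⟩ hMu
      omega
    have h4 := hB M hM h1M h2M h3 Z hZ (fun h5 => hbM (h5 hbZ))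
    have h5 : head b ∈ Z ∪ M := h4 ▸ Finset.mem_univ _
    exact (Finset.mem_union.1 h5).elim hhbZ hhbM
  obtain ⟨c, hc1', hc2'⟩ := Finset.exists_mem_notMem_of_card_lt_card
    (show (out tail head S Z).card < (out tail head S M).card by omega)
  rw [mem_out] at hc1' hc2'
  obtain ⟨hcS, hctM, hchM⟩ := hc1'
  have hchZ : head c ∈ Z := by
    by_contra h
    exact hc2' ⟨hcS, hMZ hctM, h⟩
  have hcb : c ≠ b := fun h => hbM (h ▸ hctM)
  -- a member containing the head of `c` contains the tail of `b`
  have hcb1 : ∀ U ∈ L, head c ∈ U → tail b ∈ U := by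
    intro U hU h
    by_contra h'
    exact hchM (hMm U hU h' h)
  have hcb2 : ∀ U ∈ L, head b ∈ U → head c ∈ U := by
    intro U hU h
    -- `t2 ∈ U`
    have h3 : t2 ∈ U := by
      by_contra h4
      have h5 : ¬ U ⊆ Z := fun h5 => hhbZ (h5 h)
      have h6 := hB Z hZ h1Z h2Z hZt U hU h5
      have h7 : t2 ∈ U ∪ Z := h6 ▸ Finset.mem_univ _
      exact (Finset.mem_union.1 h7).elim h4 h2Z
    have h4 := htwo (U ∪ W) (hL.union _ hU _ hW) (Finset.mem_union_right _ h1W)
      (Finset.mem_union_left _ h3)
    have h5 : head c ∈ U ∪ W := h4 ▸ Finset.mem_univ _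
    exact (Finset.mem_union.1 h5).resolve_right fun h6 => hchM (hWM h6)
  set head' : A → V := Function.update head c (head b) with hhead'
  have hh'c : head' c = head b := Function.update_self _ _ _
  have hh'o : ∀ a, a ≠ c → head' a = head a := fun a ha => Function.update_of_ne ha _ _
  obtain ⟨f, hf⟩ := ih (L.card + (S.erase b).card) (by
      rw [Finset.card_erase_of_mem hbS]
      have := Finset.card_pos.2 ⟨b, hbS⟩
      omega) L (S.erase b) tail head' rfl hL
      (by
        intro U hU a ha h
        by_cases hac : a = c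
        · rw [hac] at h ⊢
          rw [hh'c] at h
          exact hSL U hU c hcS (hcb2 U hU h)
        · rw [hh'o a hac] at h
          exact hSL U hU a (Finset.mem_of_mem_erase ha) h)
      (by
        intro U hU hne hu
        have h1 : (out tail head S U).erase b ⊆ out tail head' (S.erase b) U := by
          intro a ha
          rw [Finset.mem_erase, mem_out] at ha
          rw [mem_out, Finset.mem_erase]
          refine ⟨⟨ha.1, ha.2.1⟩, ha.2.2.1, ?_⟩
          by_cases hac : a = c
          · rw [hac, hh'c]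
            intro h
            refine ha.2.2.2 ?_
            rw [hac]
            exact hcb2 U hU h
          · rw [hh'o a hac]
            exact ha.2.2.2
        by_cases h2 : b ∈ out tail head S U
        · have h3 := mem_out.1 h2
          by_cases h4 : k + 2 ≤ (out tail head S U).card
          · refine le_trans ?_ (Finset.card_le_card h1)
            rw [Finset.card_erase_of_mem h2]
            omega
          · have h5 : Z ⊆ U := htight_sup U hU h3.2.1 h3.2.2 (by omega)
            have h6 : head c ∈ U := h5 hchZ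
            have h7 : c ∉ (out tail head S U).erase b := by
              rw [Finset.mem_erase, mem_out]
              exact fun h => h.2.2.2 h6
            have h8 : insert c ((out tail head S U).erase b) ⊆
                out tail head' (S.erase b) U := by
              refine Finset.insert_subset ?_ h1
              rw [mem_out, Finset.mem_erase, hh'c]
              exact ⟨⟨hcb, hcS⟩, h5 (hMZ hctM), h3.2.2⟩
            refine le_trans ?_ (Finset.card_le_card h8)
            rw [Finset.card_insert_of_notMem h7, Finset.card_erase_of_mem h2]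
            have := hcut U hU hne hu
            omega
        · rw [Finset.erase_eq_of_notMem h2] at h1
          exact (hcut U hU hne hu).trans (Finset.card_le_card h1)) htwo hmeet
  refine ⟨Function.update f b (f c), fun i U hU hne hu => ?_⟩
  obtain ⟨a, haS, hai, hat, hah⟩ := hf i U hU hne hu
  rw [Finset.mem_erase] at haS
  have hfa : Function.update f b (f c) a = f a := Function.update_of_ne haS.1 _ _
  by_cases hac : a = c
  · by_cases h3 : head c ∈ U
    · refine ⟨b, hbS, ?_, hcb1 U hU h3, ?_⟩
      · rw [Function.update_self, ← hac, hai]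
      · rw [hac, hh'c] at hah
        exact hah
    · refine ⟨a, haS.2, by rw [hfa, hai], hat, ?_⟩
      rw [hac]
      exact h3
  · rw [hh'o a hac] at hah
    exact ⟨a, haS.2, by rw [hfa, hai], hat, hah⟩

end

end Pool.Agent.Dij
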