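import Pool.Agent.Dij.Basic

/-!
Finite lattices of vertex sets: largest members with a property, packing of covers of the members
which avoid a root.
-/

set_option linter.unusedSectionVars false

namespace Pool.Agent.Dij

section

variable {V A : Type*} [Fintype V] [DecidableEq V] [Fintype A] [DecidableEq A]

/-- A family of vertex sets containing `∅` and `univ` and closed under union and intersection. -/
structure Lat (L : Finset (Finset V)) : Prop where
  empty : ∅ ∈ L
  univ : Finset.univ ∈ L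
  inter : ∀ U ∈ L, ∀ W ∈ L, U ∩ W ∈ L
  union : ∀ U ∈ L, ∀ W ∈ L, U ∪ W ∈ L

/-- A union-closed property of members of a lattice has a largest member. -/
theorem Lat.largest {L : Finset (Finset V)} (hL : Lat L) (P : Finset V → Prop) (h0 : P ∅)
    (hP : ∀ U W, P U → P W → P (U ∪ W)) : ∃ M ∈ L, P M ∧ ∀ U ∈ L, P U → U ⊆ M := by
  classical
  refine ⟨(L.filter P).sup id, ?_, ?_, ?_⟩
  · refine Finset.sup_induction (p := fun M => M ∈ L) hL.empty (fun U hU W hW => hL.union U hU W hW)
      fun U hU => (Finset.mem_filter.1 hU).1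
  · exact Finset.sup_induction (p := fun M => P M) h0 (fun U hU W hW => hP U W hU hW)
      fun U hU => (Finset.mem_filter.1 hU).2
  · intro U hU hPU
    exact Finset.le_sup (f := id) (Finset.mem_filter.2 ⟨hU, hPU⟩)

variable {tail head : A → V}

/-- The arcs of `X` cover the nonempty members of `L` which avoid `r`. -/
def Cov (tail head : A → V) (L : Finset (Finset V)) (r : V) (X : Finset A) : Prop :=
  ∀ U ∈ L, U.Nonempty → r ∉ U → ∃ a ∈ X, tail a ∈ U ∧ head a ∉ U

theorem Cov.mono {L : Finset (Finset V)} {r : V} {X Y : Finset A} (h : Cov tail head L r X)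
    (hXY : X ⊆ Y) : Cov tail head L r Y := fun U hU hne hr => by
  obtain ⟨a, ha, h1⟩ := h U hU hne hr
  exact ⟨a, hXY ha, h1⟩

theorem lextract_aux {L : Finset (Finset V)} (hL : Lat L) (r : V) (T : Finset A) (k : ℕ)
    (h : ∀ U ∈ L, U.Nonempty → r ∉ U → k + 1 ≤ (out tail head T U).card) :
    ∀ n : ℕ, ∀ (J : Finset A) (W : Finset V), W.card = n → J ⊆ T → W ∈ L → r ∉ W →
      (∀ e ∈ J, tail e ∉ W) →
      (∀ U ∈ L, U.Nonempty → r ∉ U → ¬ U ⊆ W → ∃ a ∈ J, tail a ∈ U ∧ head a ∉ U) →
      (∀ U ∈ L, U.Nonempty → r ∉ U → k ≤ (out tail head (T \ J) U).card) →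
      ∃ J' ⊆ T, Cov tail head L r J' ∧
        ∀ U ∈ L, U.Nonempty → r ∉ U → k ≤ (out tail head (T \ J') U).card := by
  intro n
  induction n using Nat.strong_induction_on with
  | _ n ih =>
  intro J W hn hJ hW hrW hJW hd hi
  by_cases hWe : W = ∅
  · refine ⟨J, hJ, fun U hU hne hr => hd U hU hne hr fun hsub => ?_, hi⟩
    rw [hWe] at hsub
    exact hne.ne_empty (Finset.subset_empty.1 hsub)
  have hWne : W.Nonempty := Finset.nonempty_iff_ne_empty.2 hWe
  -- the next arc
  obtain ⟨e, heT, heJ, htW, hhR, hok⟩ : ∃ e ∈ T, e ∉ J ∧ tail e ∈ W ∧ head e ∉ W ∧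
      ∀ U ∈ L, U.Nonempty → r ∉ U → tail e ∈ U → head e ∉ U →
        k + 1 ≤ (out tail head (T \ J) U).card := by
    classical
    set 𝒯 : Finset (Finset V) := L.filter fun U => U.Nonempty ∧ r ∉ U ∧
      (out tail head (T \ J) U).card ≤ k ∧ (U ∩ W).Nonempty with h𝒯
    rcases 𝒯.eq_empty_or_nonempty with h0 | hne
    · have h1 : 0 < (out tail head T W).card := by
        have := h _ hW hWne hrW
        omega
      obtain ⟨e, he⟩ := Finset.card_pos.1 h1
      rw [mem_out] at he
      obtain ⟨heT, ht, hh⟩ := he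
      refine ⟨e, heT, fun hJe => hJW e hJe ht, ht, hh, fun U hU hUne hrU htU hhU => ?_⟩
      by_contra hlt
      have : U ∈ 𝒯 := by
        rw [h𝒯, Finset.mem_filter]
        exact ⟨hU, hUne, hrU, by omega, ⟨tail e, by simp [htU, ht]⟩⟩
      rw [h0] at this
      simp at this
    · obtain ⟨U, hU𝒯, hUmin⟩ := Finset.exists_min_image 𝒯 Finset.card hne
      rw [h𝒯, Finset.mem_filter] at hU𝒯
      obtain ⟨hU, hUne, hrU, hUk, hUW⟩ := hU𝒯
      have hUWL := hL.inter U hU W hW
      have h1 : out tail head (T \ J) (U ∩ W) = out tail head T (U ∩ W) := by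
        ext a
        rw [mem_out, mem_out, Finset.mem_sdiff]
        constructor
        · rintro ⟨⟨h1, _⟩, h2⟩
          exact ⟨h1, h2⟩
        · rintro ⟨h1, h2, h3⟩
          refine ⟨⟨h1, fun h4 => ?_⟩, h2, h3⟩
          have := hJW a h4
          rw [Finset.mem_inter] at h2
          exact this h2.2
      have h2 : (out tail head (T \ J) U).card < (out tail head (T \ J) (U ∩ W)).card := by
        rw [h1]
        have := h _ hUWL hUW (fun h' => hrU (Finset.mem_inter.1 h').1)
        omega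
      obtain ⟨e, he1, he2⟩ := Finset.exists_mem_notMem_of_card_lt_card h2
      rw [mem_out, Finset.mem_sdiff, Finset.mem_inter] at he1
      rw [mem_out, Finset.mem_sdiff] at he2
      obtain ⟨⟨heT, heJ⟩, ⟨htU, htR⟩, hh⟩ := he1
      have hhU : head e ∈ U := by
        by_contra h'
        exact he2 ⟨⟨heT, heJ⟩, htU, h'⟩
      have hhR : head e ∉ W := by
        intro h'
        exact hh (Finset.mem_inter.2 ⟨hhU, h'⟩)
      refine ⟨e, heT, heJ, htR, hhR, fun U' hU' hUne' hrU' htU' hhU' => ?_⟩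
      by_contra hlt
      have hin : tail e ∈ U ∩ U' := Finset.mem_inter.2 ⟨htU, htU'⟩
      have h3 := hL.inter U hU U' hU'
      have h4 := hi _ (hL.union U hU U' hU') ⟨_, Finset.mem_union_left _ htU⟩
        (fun h' => (Finset.mem_union.1 h').elim hrU hrU')
      have h5 := submod (tail := tail) (head := head) (T \ J) U U'
      have h6 : U ∩ U' ∈ 𝒯 := by
        rw [h𝒯, Finset.mem_filter]
        exact ⟨h3, ⟨_, hin⟩, fun h' => hrU (Finset.mem_inter.1 h').1, by omega,
          ⟨tail e, Finset.mem_inter.2 ⟨hin, htR⟩⟩⟩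
      have h7 := hUmin _ h6
      have h8 : (U ∩ U').card < U.card := by
        refine Finset.card_lt_card ⟨Finset.inter_subset_left, fun hsub => ?_⟩
        exact hhU' (Finset.mem_inter.1 (hsub hhU)).2
      omega
  -- the largest member inside `W` avoiding the tail of the new arc
  obtain ⟨W', hW'L, ⟨hW'W, heW'⟩, hW'max⟩ := hL.largest (fun U => U ⊆ W ∧ tail e ∉ U)
    ⟨Finset.empty_subset _, Finset.notMem_empty _⟩
    (fun U U' h1 h2 => ⟨Finset.union_subset h1.1 h2.1, fun h' =>
      (Finset.mem_union.1 h').elim h1.2 h2.2⟩)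
  refine ih W'.card ?_ (insert e J) W' rfl ?_ hW'L (fun h' => hrW (hW'W h')) ?_ ?_ ?_
  · rw [← hn]
    exact Finset.card_lt_card ⟨hW'W, fun hsub => heW' (hsub htW)⟩
  · intro a ha
    rcases Finset.mem_insert.1 ha with rfl | ha
    · exact heT
    · exact hJ ha
  · intro a ha
    rcases Finset.mem_insert.1 ha with rfl | ha
    · exact heW'
    · exact fun h' => hJW a ha (hW'W h')
  · intro U hU hne hrU hsub
    by_cases h1 : U ⊆ W
    · refine ⟨e, Finset.mem_insert_self _ _, ?_, fun h2 => hhR (h1 h2)⟩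
      by_contra h2
      exact hsub (hW'max U hU ⟨h1, h2⟩)
    · obtain ⟨a, ha, h2⟩ := hd U hU hne hrU h1
      exact ⟨a, Finset.mem_insert_of_mem ha, h2⟩
  · intro U hU hne hrU
    have h1 : (out tail head (T \ J) U).erase e ⊆ out tail head (T \ insert e J) U := by
      intro a ha
      rw [Finset.mem_erase, mem_out, Finset.mem_sdiff] at ha
      rw [mem_out, Finset.mem_sdiff, Finset.mem_insert]
      exact ⟨⟨ha.2.1.1, fun h' => h'.elim ha.1 ha.2.1.2⟩, ha.2.2⟩
    refine le_trans ?_ (Finset.card_le_card h1)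
    by_cases h2 : e ∈ out tail head (T \ J) U
    · rw [Finset.card_erase_of_mem h2]
      rw [mem_out] at h2
      have := hok U hU hne hrU h2.2.1 h2.2.2
      omega
    · rw [Finset.erase_eq_of_notMem h2]
      exact hi U hU hne hrU

theorem lextract {L : Finset (Finset V)} (hL : Lat L) (r : V) (T : Finset A) (k : ℕ)
    (h : ∀ U ∈ L, U.Nonempty → r ∉ U → k + 1 ≤ (out tail head T U).card) :
    ∃ J ⊆ T, Cov tail head L r J ∧
        ∀ U ∈ L, U.Nonempty → r ∉ U → k ≤ (out tail head (T \ J) U).card := by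
  obtain ⟨W, hW, hrW, hmax⟩ := hL.largest (fun U => r ∉ U) (Finset.notMem_empty _)
    (fun U U' h1 h2 h' => (Finset.mem_union.1 h').elim h1 h2)
  refine lextract_aux hL r T k h _ ∅ W rfl (Finset.empty_subset _) hW hrW (by simp) ?_ ?_
  · intro U hU _ hrU hsub
    exact absurd (hmax U hU hrU) hsub
  · intro U hU hne hrU
    rw [Finset.sdiff_empty]
    have := h U hU hne hrU
    omega

/-- Edmonds' theorem for the members of a lattice which avoid a root. -/
theorem lpacking {L : Finset (Finset V)} (hL : Lat L) (r : V) : ∀ (k : ℕ) (T : Finset A),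
    (∀ U ∈ L, U.Nonempty → r ∉ U → k + 1 ≤ (out tail head T U).card) →
    ∃ f : A → Fin (k + 1), ∀ i, Cov tail head L r (T.filter fun a => f a = i) := by
  intro k
  induction k with
  | zero =>
    intro T hT
    refine ⟨fun _ => 0, fun i U hU hne hr => ?_⟩
    obtain ⟨a, ha⟩ := Finset.card_pos.1 (lt_of_lt_of_le Nat.zero_lt_one (hT U hU hne hr))
    rw [mem_out] at ha
    exact ⟨a, Finset.mem_filter.2 ⟨ha.1, by fin_cases i; rfl⟩, ha.2⟩
  | succ k ih =>
    intro T hT
    obtain ⟨J, hJT, hJ, hrest⟩ := lextract hL r T (k + 1) hT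
    obtain ⟨f, hf⟩ := ih (T \ J) hrest
    refine ⟨fun a => if a ∈ J then 0 else (f a).succ, fun i => ?_⟩
    refine Fin.cases ?_ (fun j => ?_) i
    · refine hJ.mono fun a ha => Finset.mem_filter.2 ⟨hJT ha, ?_⟩
      simp [ha]
    · refine (hf j).mono fun a ha => ?_
      rw [Finset.mem_filter, Finset.mem_sdiff] at ha
      refine Finset.mem_filter.2 ⟨ha.1.1, ?_⟩
      simp [ha.1.2, ha.2]

end

end Pool.Agent.Dij
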