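import Pool.Agent.Dij.Ind

/-!
Decomposition of the weight-one arcs into dijoins if the digraph has at most two sink components,
one of which is reached from all source components.
-/



namespace Pool.Agent.Dij

theorem two_sinks_source {V A : Type*} [Fintype V] [DecidableEq V] [Fintype A] [DecidableEq A]
    (tail head : A → V) (S : Finset A) (τ : ℕ) (hτ : 1 ≤ τ)
    (hdicut : ∀ U : Finset V, U.Nonempty → U ≠ Finset.univ →
      (∀ a : A, head a ∈ U → tail a ∈ U) →
      τ ≤ (S.filter (fun a => tail a ∈ U ∧ head a ∉ U)).card)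
    (r t : V) (hsink : ∀ x : V, Reach tail head x r ∨ Reach tail head x t)
    (hsource : ∀ x : V, ∃ z : V, Reach tail head z x ∧ Reach tail head z r) :
    ∃ f : A → Fin τ, ∀ i : Fin τ, ∀ U : Finset V, U.Nonempty → U ≠ Finset.univ →
      (∀ a : A, head a ∈ U → tail a ∈ U) →
      ∃ a ∈ S, f a = i ∧ tail a ∈ U ∧ head a ∉ U := by
  classical
  obtain ⟨k, rfl⟩ : ∃ k, τ = k + 1 := ⟨τ - 1, by omega⟩
  set L : Finset (Finset V) := Finset.univ.filter fun U => ∀ a : A, head a ∈ U → tail a ∈ U with hL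
  have hmem : ∀ U, U ∈ L ↔ ∀ a : A, head a ∈ U → tail a ∈ U := by
    intro U
    rw [hL, Finset.mem_filter]
    exact ⟨fun h => h.2, fun h => ⟨Finset.mem_univ _, h⟩⟩
  have hLat : Lat L := by
    refine ⟨(hmem _).2 fun a h => absurd h (Finset.notMem_empty _),
      (hmem _).2 fun a _ => Finset.mem_univ _, ?_, ?_⟩
    · intro U hU W hW
      rw [hmem] at hU hW ⊢
      intro a ha
      rw [Finset.mem_inter] at ha ⊢
      exact ⟨hU a ha.1, hW a ha.2⟩
    · intro U hU W hW
      rw [hmem] at hU hW ⊢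
      intro a ha
      rw [Finset.mem_union] at ha ⊢
      exact ha.imp (hU a) (hW a)
  obtain ⟨f, hf⟩ := two_sinks r t k _ L S tail head rfl hLat
    (fun U hU a _ h => (hmem U).1 hU a h)
    (fun U hU hne hu => hdicut U hne hu ((hmem U).1 hU))
    (by
      intro U hU h1 h2
      refine Finset.eq_univ_iff_forall.2 fun x => ?_
      rcases hsink x with h | h
      · exact closed_reach ((hmem U).1 hU) h h1
      · exact closed_reach ((hmem U).1 hU) h h2)
    (by
      rintro U hU ⟨x, hx⟩ W hW h1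
      obtain ⟨z, hz1, hz2⟩ := hsource x
      exact ⟨z, Finset.mem_inter.2 ⟨closed_reach ((hmem U).1 hU) hz1 hx,
        closed_reach ((hmem W).1 hW) hz2 h1⟩⟩)
  exact ⟨f, fun i U hne hu hU => hf i U ((hmem U).2 hU) hne hu⟩

end Pool.Agent.Dij
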