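import Pool.Agent.Dij.Exch

/-!
Decomposition into covers for lattices with two sinks.
-/

set_option linter.unusedSectionVars false

namespace Pool.Agent.Dij

section

variable {V A : Type*} [Fintype V] [DecidableEq V] [Fintype A] [DecidableEq A]

variable {tail head : A → V}

/-- `f` colours the arcs of `S` so that every colour leaves every proper nonempty member. -/
def Sol (tail head : A → V) (S : Finset A) {m : ℕ} (L : Finset (Finset V)) (f : A → Fin m) :
    Prop :=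
  ∀ i : Fin m, ∀ U ∈ L, U.Nonempty → U ≠ Finset.univ →
    ∃ a ∈ S, f a = i ∧ tail a ∈ U ∧ head a ∉ U

/-- All tails in the smallest member containing `t1`. -/
theorem tails_rooted {L : Finset (Finset V)} (hL : Lat L) {t1 t2 : V} {S : Finset A} {k : ℕ}
    (hSL : ∀ U ∈ L, ∀ a ∈ S, head a ∈ U → tail a ∈ U)
    (hcut : ∀ U ∈ L, U.Nonempty → U ≠ Finset.univ → k + 1 ≤ (out tail head S U).card)
    (htwo : ∀ U ∈ L, t1 ∈ U → t2 ∈ U → U = Finset.univ)
    (htail : ∀ a ∈ S, ∀ U ∈ L, t1 ∈ U → tail a ∈ U) :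
    ∃ f : A → Fin (k + 1), Sol tail head S L f := by
  classical
  obtain ⟨f0, hf0⟩ := lpacking (tail := tail) (head := head) hL t1 k S
    (fun U hU hne h1 => hcut U hU hne fun h => h1 (h ▸ Finset.mem_univ t1))
  by_cases hdeg : ∀ U ∈ L, t1 ∈ U → U = Finset.univ
  · refine ⟨f0, fun i U hU hne huniv => ?_⟩
    obtain ⟨a, ha, h1⟩ := hf0 i U hU hne fun h => huniv (hdeg U hU h)
    rw [Finset.mem_filter] at ha
    exact ⟨a, ha.1, ha.2, h1⟩
  push Not at hdeg
  obtain ⟨W, hW, h1W, hWu⟩ := hdeg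
  obtain ⟨M, hM, h2M, hMm⟩ := hL.largest (fun U => t2 ∉ U) (Finset.notMem_empty _)
    (fun U U' h1 h2 h' => (Finset.mem_union.1 h').elim h1 h2)
  have h1M : t1 ∈ M := hMm W hW (fun h => hWu (htwo W hW h1W h)) h1W
  have hMu : M ≠ Finset.univ := fun h => h2M (h ▸ Finset.mem_univ t2)
  have heq : ∀ v, v ∉ M → ∀ U ∈ L, (v ∈ U ↔ t2 ∈ U) := by
    intro v hv U hU
    constructor
    · intro h
      by_contra h2
      exact hv (hMm U hU h2 h)
    · intro h
      have h3 := htwo (U ∪ M) (hL.union _ hU _ hM) (Finset.mem_union_right _ h1M)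
        (Finset.mem_union_left _ h)
      have h4 : v ∈ U ∪ M := h3 ▸ Finset.mem_univ v
      exact (Finset.mem_union.1 h4).resolve_right hv
  set G : Finset A := out tail head S M with hG
  have hGc : k + 1 ≤ G.card := hcut M hM ⟨t1, h1M⟩ hMu
  -- the best colouring
  set FF : Finset (A → Fin (k + 1)) := Finset.univ.filter fun f =>
    ∀ i, Cov tail head L t1 (S.filter fun a => f a = i) with hFF
  have hFFne : FF.Nonempty := ⟨f0, by rw [hFF, Finset.mem_filter]; exact ⟨Finset.mem_univ _, hf0⟩⟩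
  obtain ⟨f, hf, hmax⟩ := Finset.exists_max_image FF (fun f => (G.image f).card) hFFne
  rw [hFF, Finset.mem_filter] at hf
  have hfc := hf.2
  have hall : ∀ i, ∃ a ∈ G, f a = i := by
    intro i
    by_contra hi
    push Not at hi
    have hiG : i ∉ G.image f := by
      rw [Finset.mem_image]
      rintro ⟨a, ha, h⟩
      exact hi a ha h
    have hlt : (G.image f).card < G.card := by
      have h1 : (G.image f).card < (Finset.univ : Finset (Fin (k + 1))).card :=
        Finset.card_lt_card ⟨Finset.subset_univ _, fun h => hiG (h (Finset.mem_univ i))⟩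
      rw [Finset.card_univ, Fintype.card_fin] at h1
      omega
    obtain ⟨g, hg, g', hg', hne, hgg⟩ := Finset.exists_ne_map_eq_of_card_lt_of_maps_to hlt
      (f := f) (fun a ha => Finset.mem_image_of_mem f ha)
    have hgM := mem_out.1 hg
    have hgM' := mem_out.1 hg'
    have hij : i ≠ f g := fun h => hiG (Finset.mem_image.2 ⟨g, hg, h.symm⟩)
    obtain ⟨J', hJ', hc1, hc2, hgJ⟩ := exchange hL (t1 := t1) (t2 := t2)
      (J := S.filter fun a => f a = i) (K := S.filter fun a => f a = f g)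
      (Finset.disjoint_left.2 fun a h1 h2 =>
        hij ((Finset.mem_filter.1 h1).2.symm.trans (Finset.mem_filter.1 h2).2))
      (fun U hU a ha => hSL U hU a (Finset.mem_filter.1 ha).1) (hfc i) (hfc (f g))
      (Finset.mem_filter.2 ⟨hgM.1, rfl⟩) (Finset.mem_filter.2 ⟨hgM'.1, hgg.symm⟩) hne
      (heq _ hgM.2.2) (heq _ hgM'.2.2)
    set j := f g with hj
    set f' : A → Fin (k + 1) := fun a => if f a = i ∨ f a = j then (if a ∈ J' then i else j)
      else f a with hf'
    have hf'i : ∀ a, a ∈ S → (f a = i ∨ f a = j) → a ∈ J' → f' a = i := by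
      intro a _ h1 h2
      simp only [hf', if_pos h1, if_pos h2]
    have hf'j : ∀ a, a ∈ S → (f a = i ∨ f a = j) → a ∉ J' → f' a = j := by
      intro a _ h1 h2
      simp only [hf', if_pos h1, if_neg h2]
    have hf'o : ∀ a, f a ≠ i → f a ≠ j → f' a = f a := by
      intro a h1 h2
      simp only [hf', if_neg (not_or.2 ⟨h1, h2⟩)]
    have hf'F : f' ∈ FF := by
      rw [hFF, Finset.mem_filter]
      refine ⟨Finset.mem_univ _, fun l => ?_⟩
      by_cases hli : l = i
      · subst hli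
        refine hc1.mono fun a ha => ?_
        have h1 := hJ' ha
        rw [Finset.mem_union, Finset.mem_filter, Finset.mem_filter] at h1
        have h2 : a ∈ S := h1.elim (fun h => h.1) fun h => h.1
        exact Finset.mem_filter.2 ⟨h2, hf'i a h2 (h1.imp (fun h => h.2) fun h => h.2) ha⟩
      · by_cases hlj : l = j
        · rw [hlj]
          refine hc2.mono fun a ha => ?_
          rw [Finset.mem_sdiff, Finset.mem_union, Finset.mem_filter, Finset.mem_filter] at ha
          have h2 : a ∈ S := ha.1.elim (fun h => h.1) fun h => h.1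
          exact Finset.mem_filter.2 ⟨h2, hf'j a h2 (ha.1.imp (fun h => h.2) fun h => h.2) ha.2⟩
        · refine (hfc l).mono fun a ha => ?_
          rw [Finset.mem_filter] at ha
          refine Finset.mem_filter.2 ⟨ha.1, ?_⟩
          rw [hf'o a (by rw [ha.2]; exact hli) (by rw [ha.2]; exact hlj), ha.2]
    have h1 := hmax f' hf'F
    have h2 : insert i (G.image f) ⊆ G.image f' := by
      -- one arc gets colour `i`, the other keeps colour `j`
      have h3 : ∃ e ∈ G, f' e = i ∧ ∃ e' ∈ G, f' e' = j := by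
        rcases hgJ with ⟨h4, h5⟩ | ⟨h4, h5⟩
        · exact ⟨g, hg, hf'i g hgM.1 (Or.inr hj.symm) h4, g', hg',
            hf'j g' hgM'.1 (Or.inr hgg.symm) h5⟩
        · exact ⟨g', hg', hf'i g' hgM'.1 (Or.inr hgg.symm) h4, g, hg,
            hf'j g hgM.1 (Or.inr hj.symm) h5⟩
      obtain ⟨e, he, hei, e', he', hej⟩ := h3
      intro l hl
      rcases Finset.mem_insert.1 hl with rfl | hl
      · exact Finset.mem_image.2 ⟨e, he, hei⟩
      · obtain ⟨b, hb, rfl⟩ := Finset.mem_image.1 hl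
        by_cases hbj : f b = j
        · rw [hbj]
          exact Finset.mem_image.2 ⟨e', he', hej⟩
        · exact Finset.mem_image.2 ⟨b, hb, hf'o b (fun h => hi b hb h) hbj⟩
    have h4 := Finset.card_le_card h2
    rw [Finset.card_insert_of_notMem hiG] at h4
    omega
  refine ⟨f, fun i U hU hne huniv => ?_⟩
  by_cases h1U : t1 ∈ U
  · obtain ⟨a, ha, hai⟩ := hall i
    rw [hG, mem_out] at ha
    refine ⟨a, ha.1, hai, htail a ha.1 U hU h1U, fun h => ?_⟩
    exact huniv (htwo U hU h1U ((heq _ ha.2.2 U hU).1 h))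
  · obtain ⟨a, ha, h1⟩ := hfc i U hU hne h1U
    rw [Finset.mem_filter] at ha
    exact ⟨a, ha.1, ha.2, h1⟩

/-- Contraction of a tight set. -/
theorem contract {L : Finset (Finset V)} (hL : Lat L) {S : Finset A} {m : ℕ}
    (hSL : ∀ U ∈ L, ∀ a ∈ S, head a ∈ U → tail a ∈ U)
    {Z : Finset V} (hZ : Z ∈ L) (hZne : Z.Nonempty) (hZu : Z ≠ Finset.univ)
    (htight : (out tail head S Z).card = m) {f1 f2 : A → Fin m}
    (h1 : ∀ i : Fin m, ∀ U ∈ L, (Z ⊆ U ∨ U ∩ Z = ∅) → U.Nonempty → U ≠ Finset.univ →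
      ∃ a ∈ S, f1 a = i ∧ tail a ∈ U ∧ head a ∉ U)
    (h2 : ∀ i : Fin m, ∀ U ∈ L, (U ⊆ Z ∨ U ∪ Z = Finset.univ) → U.Nonempty → U ≠ Finset.univ →
      ∃ a ∈ S, f2 a = i ∧ tail a ∈ U ∧ head a ∉ U) :
    ∃ f : A → Fin m, Sol tail head S L f := by
  classical
  have hinj : ∀ f : A → Fin m, (∀ i, ∃ a ∈ S, f a = i ∧ tail a ∈ Z ∧ head a ∉ Z) →
      Set.InjOn f (out tail head S Z : Set A) := by
    intro f hf
    refine Finset.injOn_of_surjOn_of_card_le (t := (Finset.univ : Finset (Fin m))) f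
      (fun a _ => Finset.mem_coe.2 (Finset.mem_univ _)) ?_ ?_
    · intro i _
      obtain ⟨a, ha, hai, h3⟩ := hf i
      exact ⟨a, Finset.mem_coe.2 (mem_out.2 ⟨ha, h3⟩), hai⟩
    · rw [htight, Finset.card_univ, Fintype.card_fin]
  have hs1 : ∀ i, ∃ a ∈ S, f1 a = i ∧ tail a ∈ Z ∧ head a ∉ Z := fun i =>
    h1 i Z hZ (Or.inl (Finset.Subset.refl _)) hZne hZu
  have hs2 : ∀ i, ∃ a ∈ S, f2 a = i ∧ tail a ∈ Z ∧ head a ∉ Z := fun i =>
    h2 i Z hZ (Or.inl (Finset.Subset.refl _)) hZne hZu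
  have hi1 := hinj f1 hs1
  have hi2 := hinj f2 hs2
  choose e heS hef heZ using hs2
  set σ : Fin m → Fin m := fun j => f1 (e j) with hσ
  have hσ2 : ∀ a ∈ S, tail a ∈ Z → head a ∉ Z → σ (f2 a) = f1 a := by
    intro a ha h3 h4
    have h5 : e (f2 a) = a := hi2 (Finset.mem_coe.2 (mem_out.2 ⟨heS _, heZ _⟩))
      (Finset.mem_coe.2 (mem_out.2 ⟨ha, h3, h4⟩)) (hef (f2 a))
    simp only [hσ, h5]
  refine ⟨fun a => if head a ∈ Z then σ (f2 a) else f1 a, fun i U hU hne huniv => ?_⟩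
  have hfin : ∀ a, head a ∈ Z → (fun a => if head a ∈ Z then σ (f2 a) else f1 a) a = σ (f2 a) :=
    fun a h => if_pos h
  have hfout : ∀ a, head a ∉ Z → (fun a => if head a ∈ Z then σ (f2 a) else f1 a) a = f1 a :=
    fun a h => if_neg h
  have hfZ : ∀ a ∈ S, tail a ∈ Z →
      (fun a => if head a ∈ Z then σ (f2 a) else f1 a) a = σ (f2 a) := by
    intro a ha h3
    by_cases h4 : head a ∈ Z
    · exact hfin a h4
    · rw [hfout a h4, hσ2 a ha h3 h4]
  obtain ⟨c, hcS, hci, hcZ⟩ := hs1 i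
  have hσi : σ (f2 c) = i := by rw [hσ2 c hcS hcZ.1 hcZ.2, hci]
  by_cases h3 : U ∩ Z = ∅
  · obtain ⟨a, haS, hai, hat, hah⟩ := h1 i U hU (Or.inr h3) hne huniv
    have h4 : tail a ∉ Z := fun h => by
      have : tail a ∈ U ∩ Z := Finset.mem_inter.2 ⟨hat, h⟩
      rw [h3] at this
      exact Finset.notMem_empty _ this
    have h5 : head a ∉ Z := fun h => h4 (hSL Z hZ a haS h)
    exact ⟨a, haS, by rw [hfout a h5, hai], hat, hah⟩
  by_cases h4 : U ∪ Z = Finset.univ
  · obtain ⟨a, haS, hai, hat, hah⟩ := h2 (f2 c) U hU (Or.inr h4) hne huniv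
    have h5 : head a ∈ Z := by
      have : head a ∈ U ∪ Z := h4 ▸ Finset.mem_univ _
      exact (Finset.mem_union.1 this).resolve_left hah
    exact ⟨a, haS, by rw [hfin a h5, hai, hσi], hat, hah⟩
  obtain ⟨a1, ha1S, ha1i, ha1t, ha1h⟩ := h2 (f2 c) (U ∩ Z) (hL.inter _ hU _ hZ)
    (Or.inl Finset.inter_subset_right) (Finset.nonempty_iff_ne_empty.2 h3)
    (fun h => hZu (Finset.eq_univ_iff_forall.2 fun x =>
      (Finset.mem_inter.1 (h ▸ Finset.mem_univ x : x ∈ U ∩ Z)).2))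
  obtain ⟨a2, ha2S, ha2i, ha2t, ha2h⟩ := h1 i (U ∪ Z) (hL.union _ hU _ hZ)
    (Or.inl Finset.subset_union_right) (hne.mono Finset.subset_union_left) h4
  rw [Finset.mem_inter] at ha1t
  rw [Finset.mem_union, not_or] at ha2h
  by_cases h5 : tail a2 ∈ U
  · exact ⟨a2, ha2S, by rw [hfout a2 ha2h.2, ha2i], h5, ha2h.1⟩
  have h6 : tail a2 ∈ Z := (Finset.mem_union.1 ha2t).resolve_left h5
  have hfa1 : (fun a => if head a ∈ Z then σ (f2 a) else f1 a) a1 = i := by
    rw [hfZ a1 ha1S ha1t.2, ha1i, hσi]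
  by_cases h7 : head a1 ∈ U
  · exfalso
    have h8 : head a1 ∉ Z := fun h => ha1h (Finset.mem_inter.2 ⟨h7, h⟩)
    have h9 : f1 a1 = f1 a2 := by rw [ha2i, ← hfa1, hfout a1 h8]
    have h10 := hi1 (Finset.mem_coe.2 (mem_out.2 ⟨ha1S, ha1t.2, h8⟩))
      (Finset.mem_coe.2 (mem_out.2 ⟨ha2S, h6, ha2h.2⟩)) h9
    rw [← h10] at h5
    exact h5 ha1t.1
  · exact ⟨a1, ha1S, hfa1, ha1t.1, h7⟩

end

end Pool.Agent.Dij
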